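import Pool.Agent.W2helper58.IR.Cnt

/-!
# The averages over a cylinder
-/

set_option autoImplicit false

namespace Pool.Agent.W2helper58.IR

open Pool.Agent.NPC Pool.Agent.H620R2.Gauge Pool.Agent.W2helper57.LC MeasureTheory

open Pool.Agent.W2helper58.GU (acc)

open Pool.Agent.H628R3.RO (cyl ofL)

section

variable (bd : Alg → Polynomial ℕ) (hbd : Bd bd) (T : Set (List Bool)) (G : Oracle)
  (Y : Sch) (ℓ : ℕ) (L : List (List Bool)) (n : ℕ)

/-- the average failure of the scheme -/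
noncomputable def cf (B : Oracle) : ℝ := fl Y n fun r s t b =>
  (Y.at (mix T G B)).dec (pairBits t (pairBits (un n) (pairBits ((Y.at (mix T G B)).sk n r)
    ((Y.at (mix T G B)).ct n ((Y.at (mix T G B)).pk n r) s b)))) = [b]

/-- the average failure of the attack -/
noncomputable def af (D : Oracle → List Bool → List Bool) (B : Oracle) : ℝ := fl Y n fun r s t b =>
  D (mix T G B) (pairBits t (pairBits (un n) (pairBits ((Y.at (mix T G B)).pk n r)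
    ((Y.at (mix T G B)).ct n ((Y.at (mix T G B)).pk n r) s b)))) = [b]

/-- the failure in the experiment -/
noncomputable def cw (ω : Xs T ℓ ((bb bd Y ℓ).eval n) → Bool) : ℝ :=
  (∑ r : Fin (Y.pg.eval n) → Bool, (Nat.card {s : SS Y n //
    ¬ (sys Y T (ct0 T ((bb bd Y ℓ).eval n) G) ℓ L n hbd).ok
      ((sys Y T (ct0 T ((bb bd Y ℓ).eval n) G) ℓ L n hbd).sk r ω)
      ((sys Y T (ct0 T ((bb bd Y ℓ).eval n) G) ℓ L n hbd).ct
        ((sys Y T (ct0 T ((bb bd Y ℓ).eval n) G) ℓ L n hbd).pk r ω) s ω) s ω} : ℝ)) /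
      (2 ^ (Y.pg.eval n) * Fintype.card (SS Y n))

variable
  (qn : (Y : Sch) → (ℓ : ℕ) → (L : List (List Bool)) → (G : Oracle) → (n : ℕ) →
        List Bool → List Bool → Xs T ℓ ((bb bd Y ℓ).eval n))
  (bs : (Y : Sch) → (ℓ : ℕ) → (L : List (List Bool)) → (G : Oracle) → (n : ℕ) →
        List Bool → List Bool →
        (Fin (Y.pg.eval n) → Bool) × (Xs T ℓ ((bb bd Y ℓ).eval n) → Bool))

/-- the run chosen by the attack -/
noncomputable def cho (v : (Fin (Y.pg.eval n) → Bool) × (Xs T ℓ ((bb bd Y ℓ).eval n) → Bool)) :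
    (Fin (Y.pg.eval n) → Bool) × (Xs T ℓ ((bb bd Y ℓ).eval n) → Bool) :=
  chosen (sys Y T (ct0 T ((bb bd Y ℓ).eval n) G) ℓ L n hbd) ((kp bd Y).eval n)
    (qn Y ℓ L (ct0 T ((bb bd Y ℓ).eval n) G) n) (bs Y ℓ L (ct0 T ((bb bd Y ℓ).eval n) G) n) v

/-- the failure of the attack in the experiment -/
noncomputable def aw (ω : Xs T ℓ ((bb bd Y ℓ).eval n) → Bool) : ℝ :=
  (∑ r : Fin (Y.pg.eval n) → Bool, (Nat.card {s : SS Y n //
    ¬ (sys Y T (ct0 T ((bb bd Y ℓ).eval n) G) ℓ L n hbd).ok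
      ((sys Y T (ct0 T ((bb bd Y ℓ).eval n) G) ℓ L n hbd).sk
        (cho bd hbd T G Y ℓ L n qn bs (r, ω)).1 (cho bd hbd T G Y ℓ L n qn bs (r, ω)).2)
      ((sys Y T (ct0 T ((bb bd Y ℓ).eval n) G) ℓ L n hbd).ct
        ((sys Y T (ct0 T ((bb bd Y ℓ).eval n) G) ℓ L n hbd).pk r ω) s ω) s
      ((sys Y T (ct0 T ((bb bd Y ℓ).eval n) G) ℓ L n hbd).ptc
        (cho bd hbd T G Y ℓ L n qn bs (r, ω)) ω)} : ℝ)) /
      (2 ^ (Y.pg.eval n) * Fintype.card (SS Y n))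

variable {bd hbd T G Y ℓ L n qn bs}

theorem cf_eq {B : Oracle} (hB : B ∈ cyl ℓ L) :
    cf T G Y n B = cw bd hbd T G Y ℓ L n (fun x => B x.1) := by
  unfold cf cw
  rw [fl_eq]
  congr 1
  refine Finset.sum_congr rfl fun r _ => ?_
  congr 1
  refine Nat.card_congr (Equiv.subtypeEquivRight fun s => ?_)
  rw [not_iff_not]
  have e1 : (Y.at (mix T G B)).pk n (List.ofFn r) =
      (sys Y T (ct0 T ((bb bd Y ℓ).eval n) G) ℓ L n hbd).pk r (fun x => B x.1) :=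
    pk_eq n hB r
  have e2 : (Y.at (mix T G B)).sk n (List.ofFn r) =
      (sys Y T (ct0 T ((bb bd Y ℓ).eval n) G) ℓ L n hbd).sk r (fun x => B x.1) :=
    sk_eq n hB r
  have l1 : ((sys Y T (ct0 T ((bb bd Y ℓ).eval n) G) ℓ L n hbd).pk r
      (fun x => B x.1)).length ≤ (κ bd Y).eval n := len_pk Y n hbd _ _
  have l2 : ((sys Y T (ct0 T ((bb bd Y ℓ).eval n) G) ℓ L n hbd).sk r
      (fun x => B x.1)).length ≤ (κ bd Y).eval n := len_sk Y n hbd _ _
  have e3 : (Y.at (mix T G B)).ct n ((sys Y T (ct0 T ((bb bd Y ℓ).eval n) G) ℓ L n hbd).pk r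
      (fun x => B x.1)) (List.ofFn s.1) s.2.2 =
      (sys Y T (ct0 T ((bb bd Y ℓ).eval n) G) ℓ L n hbd).ct
        ((sys Y T (ct0 T ((bb bd Y ℓ).eval n) G) ℓ L n hbd).pk r (fun x => B x.1)) s
        (fun x => B x.1) := ct_eq n hB l1 s
  have l3 : ((sys Y T (ct0 T ((bb bd Y ℓ).eval n) G) ℓ L n hbd).ct
        ((sys Y T (ct0 T ((bb bd Y ℓ).eval n) G) ℓ L n hbd).pk r (fun x => B x.1)) s
        (fun x => B x.1)).length ≤ (χ bd Y).eval n := by
    rw [← e3]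
    exact len_ct Y n hbd _ l1 s
  rw [e1, e2, e3]
  exact dec_eq n hB l2 l3 s

theorem af_eq {F1 F2 F3 : Oracle → List Bool → List Bool} {B : Oracle} (hB : B ∈ cyl ℓ L)
    (h1 : ∀ z, F1 (mix T G B) z = g0 qn Y ℓ L G z)
    (h2 : ∀ z, F2 (mix T G B) z = g1 hbd bs Y ℓ L G z)
    (h3 : ∀ z, F3 (mix T G B) z = g2 hbd bs Y ℓ L G z) :
    af T G Y n (att F1 F2 F3 (kp bd Y) Y.MD) B =
      aw bd hbd T G Y ℓ L n qn bs (fun x => B x.1) := by
  unfold af aw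
  rw [fl_eq]
  congr 1
  refine Finset.sum_congr rfl fun r _ => ?_
  congr 1
  refine Nat.card_congr (Equiv.subtypeEquivRight fun s => ?_)
  rw [not_iff_not]
  have e1 : (Y.at (mix T G B)).pk n (List.ofFn r) =
      (sys Y T (ct0 T ((bb bd Y ℓ).eval n) G) ℓ L n hbd).pk r (fun x => B x.1) :=
    pk_eq n hB r
  have l1 : ((sys Y T (ct0 T ((bb bd Y ℓ).eval n) G) ℓ L n hbd).pk r
      (fun x => B x.1)).length ≤ (κ bd Y).eval n := len_pk Y n hbd _ _
  have e3 : (Y.at (mix T G B)).ct n ((sys Y T (ct0 T ((bb bd Y ℓ).eval n) G) ℓ L n hbd).pk r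
      (fun x => B x.1)) (List.ofFn s.1) s.2.2 =
      (sys Y T (ct0 T ((bb bd Y ℓ).eval n) G) ℓ L n hbd).ct
        ((sys Y T (ct0 T ((bb bd Y ℓ).eval n) G) ℓ L n hbd).pk r (fun x => B x.1)) s
        (fun x => B x.1) := ct_eq n hB l1 s
  have l3 : ((sys Y T (ct0 T ((bb bd Y ℓ).eval n) G) ℓ L n hbd).ct
        ((sys Y T (ct0 T ((bb bd Y ℓ).eval n) G) ℓ L n hbd).pk r (fun x => B x.1)) s
        (fun x => B x.1)).length ≤ (χ bd Y).eval n := by
    rw [← e3]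
    exact len_ct Y n hbd _ l1 s
  rw [e1, e3]
  exact att_eq n hB h1 h2 h3 l3 s rfl

/-- the inequality for the experiment -/
theorem sum_aw_le (h : GoodStrat (sys Y T (ct0 T ((bb bd Y ℓ).eval n) G) ℓ L n hbd)
      ((kp bd Y).eval n) (qn Y ℓ L (ct0 T ((bb bd Y ℓ).eval n) G) n)
      (bs Y ℓ L (ct0 T ((bb bd Y ℓ).eval n) G) n)) :
    ∑ ω : Xs T ℓ ((bb bd Y ℓ).eval n) → Bool, aw bd hbd T G Y ℓ L n qn bs ω ≤
      ∑ ω : Xs T ℓ ((bb bd Y ℓ).eval n) → Bool, cw bd hbd T G Y ℓ L n ω +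
        1 / 16 * 2 ^ (Xs T ℓ ((bb bd Y ℓ).eval n)).card := by
  have h1 := h.le
  have hpos : (0 : ℝ) < 2 ^ (Y.pg.eval n) * Fintype.card (SS Y n) := by
    rw [card_SS]
    positivity
  unfold aw cw cho
  rw [← Finset.sum_div, ← Finset.sum_div, div_add' _ _ _ hpos.ne']
  apply div_le_div_of_nonneg_right _ hpos.le
  refine h1.trans (le_of_eq ?_)
  congr 1
  simp only [Fintype.card_pi, Fintype.card_bool, Finset.prod_const, Finset.card_univ,
    Fintype.card_fin, Fintype.card_coe]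
  push_cast
  ring

end

end Pool.Agent.W2helper58.IR
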