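import Pool.Agent.W2helper58.IR.Run

/-!
# Counting
-/

set_option autoImplicit false

namespace Pool.Agent.W2helper58.IR

open Pool.Agent.NPC Pool.Agent.H620R2.Gauge Pool.Agent.W2helper57.LC MeasureTheory

open Pool.Agent.W2helper58.GU (acc)

open Pool.Agent.H628R3.RO (cyl ofL)

open Classical in
/-- indicator -/
noncomputable def ind (P : Prop) : ℝ := if P then 1 else 0

theorem ind_nonneg (P : Prop) : 0 ≤ ind P := by
  unfold ind
  split_ifs <;> norm_num

theorem ind_not (P : Prop) : ind (¬ P) = 1 - ind P := by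
  unfold ind
  by_cases h : P <;> simp [h]

theorem card_ind {α : Type} [Fintype α] (P : α → Prop) :
    (Nat.card {x : α // P x} : ℝ) = ∑ x, ind (P x) := by
  classical
  rw [Nat.card_eq_fintype_card, Fintype.card_subtype]
  unfold ind
  rw [Finset.sum_boole]

theorem pr3_ind (a b c : ℕ) (E : List Bool → List Bool → List Bool → Prop) :
    pr3 a b c E = (∑ r : Fin a → Bool, ∑ s : Fin b → Bool, ∑ t : Fin c → Bool,
      ind (E (List.ofFn r) (List.ofFn s) (List.ofFn t))) / 2 ^ (a + b + c) := by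
  unfold pr3
  rw [card_ind, Fintype.sum_prod_type]
  simp only [Fintype.sum_prod_type]

section

variable (Y : Sch) (n : ℕ)

/-- the average failure -/
noncomputable def fl (E : List Bool → List Bool → List Bool → Bool → Prop) : ℝ :=
  1 - (pr3 (Y.pg.eval n) (Y.pe.eval n) (Y.pd.eval n) (fun r s t => E r s t false) +
    pr3 (Y.pg.eval n) (Y.pe.eval n) (Y.pd.eval n) (fun r s t => E r s t true)) / 2

theorem card_SS : (Fintype.card (SS Y n) : ℝ) =
    2 ^ (Y.pe.eval n) * (2 ^ (Y.pd.eval n) * 2) := by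
  simp [SS]

theorem fl_eq (E : List Bool → List Bool → List Bool → Bool → Prop) :
    fl Y n E = (∑ r : Fin (Y.pg.eval n) → Bool, (Nat.card {s : SS Y n //
      ¬ E (List.ofFn r) (List.ofFn s.1) (List.ofFn s.2.1) s.2.2} : ℝ)) /
      (2 ^ (Y.pg.eval n) * Fintype.card (SS Y n)) := by
  have h1 : ∀ r : Fin (Y.pg.eval n) → Bool, (Nat.card {s : SS Y n //
      ¬ E (List.ofFn r) (List.ofFn s.1) (List.ofFn s.2.1) s.2.2} : ℝ) =
      Fintype.card (SS Y n) - ∑ s : Fin (Y.pe.eval n) → Bool, ∑ t : Fin (Y.pd.eval n) → Bool,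
        (ind (E (List.ofFn r) (List.ofFn s) (List.ofFn t) true) +
          ind (E (List.ofFn r) (List.ofFn s) (List.ofFn t) false)) := by
    intro r
    rw [card_ind]
    simp only [ind_not, Finset.sum_sub_distrib, Fintype.sum_prod_type, Fintype.sum_bool]
    congr 1
    simp [SS]
    ring
  rw [Finset.sum_congr rfl fun r _ => h1 r, Finset.sum_sub_distrib]
  unfold fl
  rw [pr3_ind, pr3_ind]
  simp only [Finset.sum_add_distrib]
  rw [card_SS]
  simp only [Finset.sum_const, Finset.card_univ, Fintype.card_pi, Fintype.card_bool,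
    Finset.prod_const, Fintype.card_fin, nsmul_eq_mul]
  push_cast
  have h2 : (2 : ℝ) ^ (Y.pg.eval n) ≠ 0 := by positivity
  have h3 : (2 : ℝ) ^ (Y.pe.eval n) ≠ 0 := by positivity
  have h4 : (2 : ℝ) ^ (Y.pd.eval n) ≠ 0 := by positivity
  rw [pow_add, pow_add]
  field_simp
  ring

end

end Pool.Agent.W2helper58.IR
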