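import Pool.Agent.W2helper58.IR.Sysm
import Pool.Agent.W2helper58.NX.Base

/-!
# The guide for the attacks
-/

set_option autoImplicit false

namespace Pool.Agent.W2helper58.IR

open Pool.Agent.NPC Pool.Agent.H620R2.Gauge Pool.Agent.W2helper57.LC MeasureTheory

open Pool.Agent.W2helper58.GU (acc)

open Pool.Agent.H628R3.RO (cyl ofL)

section

variable {X R S : Type} [Fintype X] [Fintype R] [Fintype S]

/-- the run of the key generation chosen by the attack -/
def chosen (Y : Sys X R S) (K : ℕ) (qn : List Bool → List Bool → X)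
    (bs : List Bool → List Bool → R × (X → Bool)) (v : R × (X → Bool)) : R × (X → Bool) :=
  bs (Y.pk v.1 v.2) (ans (qn (Y.pk v.1 v.2)) v.2 K)

open Classical in
/-- the strategy is good -/
def GoodStrat (Y : Sys X R S) (K : ℕ) (qn : List Bool → List Bool → X)
    (bs : List Bool → List Bool → R × (X → Bool)) : Prop :=
  ∑ v : R × (X → Bool), (Nat.card {s : S // ¬ Y.ok
      (Y.sk (chosen Y K qn bs v).1 (chosen Y K qn bs v).2)
      (Y.ct (Y.pk v.1 v.2) s v.2) s (Y.ptc (chosen Y K qn bs v) v.2)} : ℝ) ≤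
    ∑ v : R × (X → Bool), (Nat.card {s : S // ¬ Y.ok (Y.sk v.1 v.2)
      (Y.ct (Y.pk v.1 v.2) s v.2) s v.2} : ℝ) +
      1 / 16 * (Fintype.card (R × (X → Bool)) * Fintype.card S)

theorem GoodStrat.le [DecidableEq X] {Y : Sys X R S} {K : ℕ} {qn : List Bool → List Bool → X}
    {bs : List Bool → List Bool → R × (X → Bool)} (h : GoodStrat Y K qn bs) :
    ∑ ω : X → Bool, ∑ r : R, (Nat.card {s : S // ¬ Y.ok
      (Y.sk (chosen Y K qn bs (r, ω)).1 (chosen Y K qn bs (r, ω)).2)
      (Y.ct (Y.pk r ω) s ω) s (Y.ptc (chosen Y K qn bs (r, ω)) ω)} : ℝ) ≤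
    ∑ ω : X → Bool, ∑ r : R, (Nat.card {s : S // ¬ Y.ok (Y.sk r ω)
      (Y.ct (Y.pk r ω) s ω) s ω} : ℝ) +
      1 / 16 * (Fintype.card R * 2 ^ Fintype.card X * Fintype.card S) := by
  have e : (fun a b : X => Classical.propDecidable (a = b)) = ‹DecidableEq X› :=
    Subsingleton.elim _ _
  unfold GoodStrat at h
  rw [e, Fintype.sum_prod_type_right, Fintype.sum_prod_type_right] at h
  refine h.trans (le_of_eq ?_)
  congr 2
  rw [Fintype.card_prod]
  simp only [Fintype.card_pi, Fintype.card_bool, Finset.prod_const, Finset.card_univ]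
  push_cast
  ring

theorem exists_good (hfin : P_fin) [Nonempty X] [Nonempty R] (Y : Sys X R S) :
    ∃ (qn : List Bool → List Bool → X) (bs : List Bool → List Bool → R × (X → Bool)),
      GoodStrat Y (4096 * (Y.t + 1) ^ 2) qn bs := hfin X R S Y

end

theorem nonempty_Xs {bd : Alg → Polynomial ℕ} {Y : Sch} {T : Set (List Bool)} (ℓ n : ℕ)
    (hT : ∀ u : List Bool, false :: false :: u ∉ T) :
    Nonempty (Xs T ℓ ((bb bd Y ℓ).eval n)) := by
  refine ⟨⟨false :: false :: List.replicate ℓ false, mem_Xs.2 ⟨?_, ?_, hT _⟩⟩⟩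
  · unfold bb
    simp only [Polynomial.eval_add, Polynomial.eval_C, List.length_cons, List.length_replicate]
    omega
  · simp only [List.length_cons, List.length_replicate]
    omega

/-- the number of questions of the attack -/
noncomputable def kp (bd : Alg → Polynomial ℕ) (Y : Sch) : Polynomial ℕ :=
  Polynomial.C 4096 * (tt bd Y + Polynomial.C 1) ^ 2

theorem eval_kp (bd : Alg → Polynomial ℕ) (Y : Sch) (n : ℕ) :
    (kp bd Y).eval n = 4096 * ((tt bd Y).eval n + 1) ^ 2 := by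
  unfold kp
  simp only [Polynomial.eval_add, Polynomial.eval_mul, Polynomial.eval_C, Polynomial.eval_pow]

theorem exists_strat (hfin : P_fin) {bd : Alg → Polynomial ℕ} (hbd : Bd bd)
    {T : Set (List Bool)} (hT : ∀ u : List Bool, false :: false :: u ∉ T) :
    ∃ (qn : (Y : Sch) → (ℓ : ℕ) → (L : List (List Bool)) → (G : Oracle) → (n : ℕ) →
        List Bool → List Bool → Xs T ℓ ((bb bd Y ℓ).eval n))
      (bs : (Y : Sch) → (ℓ : ℕ) → (L : List (List Bool)) → (G : Oracle) → (n : ℕ) →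
        List Bool → List Bool →
        (Fin (Y.pg.eval n) → Bool) × (Xs T ℓ ((bb bd Y ℓ).eval n) → Bool)),
      ∀ Y ℓ L G n, GoodStrat (sys Y T G ℓ L n hbd) ((kp bd Y).eval n) (qn Y ℓ L G n)
        (bs Y ℓ L G n) := by
  have h := fun (Y : Sch) (ℓ : ℕ) (L : List (List Bool)) (G : Oracle) (n : ℕ) =>
    haveI := nonempty_Xs (bd := bd) (Y := Y) ℓ n hT
    exists_good hfin (sys Y T G ℓ L n hbd)
  choose qn bs h using h
  refine ⟨qn, bs, fun Y ℓ L G n => ?_⟩
  have h1 := h Y ℓ L G n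
  rw [eval_kp]
  exact h1

open Classical in
/-- the guide, restricted to strings of length less than `b` -/
noncomputable def ct0 (T : Set (List Bool)) (b : ℕ) (A : Oracle) : Oracle :=
  fun u => if u ∈ T ∧ u.length < b then A u else false

theorem ct0_congr {T : Set (List Bool)} {b : ℕ} {A A' : Oracle}
    (h : ∀ u ∈ T, u.length < b → A u = A' u) : ct0 T b A = ct0 T b A' := by
  funext u
  unfold ct0
  split_ifs with hu
  · exact h u hu.1 hu.2
  · rfl

/-- the enumeration of the schemes and cylinders -/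
theorem exists_idx : ∃ g : ℕ → Sch × ℕ × List (List Bool), Function.Surjective g := by
  obtain ⟨a, ha⟩ := exists_alg
  have h1 : Countable Alg := ha.countable
  have h2 := CC.poly_countable
  let F : Sch → (Alg × Alg × Alg × Alg) × (Polynomial ℕ × Polynomial ℕ × Polynomial ℕ) :=
    fun Y => ((Y.MP, Y.MS, Y.ME, Y.MD), (Y.pg, Y.pe, Y.pd))
  have hF : Function.Injective F := by
    intro Y Y' h
    obtain ⟨_, _, _, _, _, _, _⟩ := Y
    obtain ⟨_, _, _, _, _, _, _⟩ := Y'
    simp only [F, Prod.mk.injEq] at h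
    obtain ⟨⟨rfl, rfl, rfl, rfl⟩, rfl, rfl, rfl⟩ := h
    rfl
  have h3 : Countable Sch := hF.countable
  have h4 : Nonempty (Sch × ℕ × List (List Bool)) :=
    ⟨⟨⟨a 0, a 0, a 0, a 0, 0, 0, 0⟩, 0, []⟩⟩
  exact exists_surjective_nat _

section

variable {bd : Alg → Polynomial ℕ} (hbd : Bd bd) {T : Set (List Bool)}
  (qn : (Y : Sch) → (ℓ : ℕ) → (L : List (List Bool)) → (G : Oracle) → (n : ℕ) →
        List Bool → List Bool → Xs T ℓ ((bb bd Y ℓ).eval n))
  (bs : (Y : Sch) → (ℓ : ℕ) → (L : List (List Bool)) → (G : Oracle) → (n : ℕ) →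
        List Bool → List Bool →
        (Fin (Y.pg.eval n) → Bool) × (Xs T ℓ ((bb bd Y ℓ).eval n) → Bool))
  (Y : Sch) (ℓ : ℕ) (L : List (List Bool))

/-- the next question -/
noncomputable def g0' (A : Oracle) (n : ℕ) (k a : List Bool) : List Bool :=
  (qn Y ℓ L (ct0 T ((bb bd Y ℓ).eval n) A) n k a).1

/-- the secret key -/
noncomputable def g1' (A : Oracle) (n : ℕ) (k a : List Bool) : List Bool :=
  (sys Y T (ct0 T ((bb bd Y ℓ).eval n) A) ℓ L n hbd).sk
    (bs Y ℓ L (ct0 T ((bb bd Y ℓ).eval n) A) n k a).1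
    (bs Y ℓ L (ct0 T ((bb bd Y ℓ).eval n) A) n k a).2

open Classical in
/-- the change of the oracle -/
noncomputable def chg {R S : Type} {b : ℕ} (Z : Sys (Xs T ℓ b) R S)
    (v : R × (Xs T ℓ b → Bool)) (q : List Bool) : List Bool :=
  if h : q ∈ Xs T ℓ b then (if (⟨q, h⟩ : Xs T ℓ b) ∈ Z.QA v.1 v.2 then [v.2 ⟨q, h⟩] else [])
  else []

/-- the change of the oracle -/
noncomputable def g2' (A : Oracle) (n : ℕ) (k a q : List Bool) : List Bool :=
  chg ℓ (sys Y T (ct0 T ((bb bd Y ℓ).eval n) A) ℓ L n hbd)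
    (bs Y ℓ L (ct0 T ((bb bd Y ℓ).eval n) A) n k a) q

/-- the next question -/
noncomputable def g0 (A : Oracle) (z : List Bool) : List Bool :=
  g0' qn Y ℓ L A (unpair z).1.length (unpair (unpair z).2).1 (unpair (unpair z).2).2

/-- the secret key -/
noncomputable def g1 (A : Oracle) (z : List Bool) : List Bool :=
  g1' hbd bs Y ℓ L A (unpair z).1.length (unpair (unpair z).2).1 (unpair (unpair z).2).2

/-- the change of the oracle -/
noncomputable def g2 (A : Oracle) (z : List Bool) : List Bool :=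
  g2' hbd bs Y ℓ L A (unpair (unpair z).1).1.length (unpair (unpair (unpair z).1).2).1
    (unpair (unpair (unpair z).1).2).2 (unpair z).2

/-- the functionals of the guide -/
noncomputable def gam (idx : ℕ → Sch × ℕ × List (List Bool)) (e : ℕ) (A : Oracle)
    (z : List Bool) : List Bool :=
  if e % 3 = 0 then g0 qn (idx (e / 3)).1 (idx (e / 3)).2.1 (idx (e / 3)).2.2 A z
  else if e % 3 = 1 then g1 hbd bs (idx (e / 3)).1 (idx (e / 3)).2.1 (idx (e / 3)).2.2 A z
  else g2 hbd bs (idx (e / 3)).1 (idx (e / 3)).2.1 (idx (e / 3)).2.2 A z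

end

/-- the bounds for the guide -/
noncomputable def PP (bd : Alg → Polynomial ℕ) (idx : ℕ → Sch × ℕ × List (List Bool)) (e : ℕ) :
    Polynomial ℕ := bb bd (idx (e / 3)).1 (idx (e / 3)).2.1

theorem len1 (z : List Bool) : (unpair z).1.length ≤ z.length :=
  (Pool.Agent.W2helper58.NX.length_unpair_le z).1

theorem len2 (z : List Bool) : (unpair z).2.length ≤ z.length :=
  (Pool.Agent.W2helper58.NX.length_unpair_le z).2

theorem one_le_bb (bd : Alg → Polynomial ℕ) (Y : Sch) (ℓ n : ℕ) : 1 ≤ (bb bd Y ℓ).eval n := by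
  unfold bb
  simp only [Polynomial.eval_add, Polynomial.eval_C]
  omega

/-- The attack tools. -/
theorem exists_guide (hguide : P_guide) (hfin : P_fin) {bd : Alg → Polynomial ℕ} (hbd : Bd bd)
    (K : ℕ) (hK : 1 ≤ K) : ∃ T : Set (List Bool),
  (∀ u : List Bool, false :: false :: u ∉ T) ∧
  (∀ ε : ℝ, 0 < ε → 1 < ε * K → ∀ᶠ N : ℕ in Filter.atTop,
    haveI := Classical.decPred fun i => str i ∈ T
    (((Finset.range N).filter (fun i => str i ∈ T)).card : ℝ) ≤ 2 ^ (Real.logb 2 N) ^ ε) ∧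
  ∃ (G : Oracle)
    (qn : (Y : Sch) → (ℓ : ℕ) → (L : List (List Bool)) → (G : Oracle) → (n : ℕ) →
        List Bool → List Bool → Xs T ℓ ((bb bd Y ℓ).eval n))
    (bs : (Y : Sch) → (ℓ : ℕ) → (L : List (List Bool)) → (G : Oracle) → (n : ℕ) →
        List Bool → List Bool →
        (Fin (Y.pg.eval n) → Bool) × (Xs T ℓ ((bb bd Y ℓ).eval n) → Bool)),
      (∀ Y ℓ L G n, GoodStrat (sys Y T G ℓ L n hbd) ((kp bd Y).eval n) (qn Y ℓ L G n)
        (bs Y ℓ L G n)) ∧
      ∀ Y ℓ L, ∃ F1 F2 F3 : Oracle → List Bool → List Bool, UFP F1 ∧ UFP F2 ∧ UFP F3 ∧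
        ∀ A : Oracle, (∀ u ∈ T, A u = G u) → ∀ z, F1 A z = g0 qn Y ℓ L G z ∧
          F2 A z = g1 hbd bs Y ℓ L G z ∧ F3 A z = g2 hbd bs Y ℓ L G z := by
  obtain ⟨idx, hidx⟩ := exists_idx
  obtain ⟨T, hT, hs, hγ⟩ := hguide K (PP bd idx) hK
  refine ⟨T, hT, ?_, ?_⟩
  · intro ε h1 h2
    filter_upwards [hs ε h1 h2] with N hN
    exact hN
  obtain ⟨qn, bs, hgood⟩ := exists_strat hfin hbd hT
  have hloc : ∀ e A A' z, (∀ u ∈ T, u.length ≤ (PP bd idx e).eval z.length → A u = A' u) →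
      gam hbd qn bs idx e A z = gam hbd qn bs idx e A' z := by
    intro e A A' z h
    have key : ∀ n ≤ z.length, ct0 T ((bb bd (idx (e / 3)).1 (idx (e / 3)).2.1).eval n) A =
        ct0 T ((bb bd (idx (e / 3)).1 (idx (e / 3)).2.1).eval n) A' := by
      intro n hn
      refine ct0_congr fun u hu hl => h u hu ?_
      exact hl.le.trans (eval_mono _ hn)
    unfold gam g0 g1 g2 g0' g1' g2'
    rw [key _ (len1 z), key _ ((len1 _).trans (len1 z))]
  have hlen : ∀ e A z, (gam hbd qn bs idx e A z).length ≤ (PP bd idx e).eval z.length := by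
    intro e A z
    unfold gam
    have hmono : ∀ n ≤ z.length, (bb bd (idx (e / 3)).1 (idx (e / 3)).2.1).eval n ≤
        (PP bd idx e).eval z.length := fun n hn => eval_mono _ hn
    split_ifs with h1 h2
    · unfold g0 g0'
      refine le_trans ?_ (hmono _ (len1 z))
      exact (mem_Xs.1 (Subtype.property _)).1.le
    · unfold g1 g1'
      refine le_trans ?_ (hmono _ (len1 z))
      refine (len_sk (idx (e / 3)).1 _ hbd _ _).trans ?_
      unfold bb
      simp only [Polynomial.eval_add]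
      omega
    · unfold g2 g2' chg
      have h3 := (one_le_bb bd (idx (e / 3)).1 (idx (e / 3)).2.1 z.length).trans
        (hmono _ le_rfl)
      split_ifs
      · simpa using h3
      · simp
      · simp
  obtain ⟨G, hG⟩ := hγ (gam hbd qn bs idx) hloc hlen
  · refine ⟨G, qn, bs, hgood, ?_⟩
    intro Y ℓ L
    obtain ⟨j, hj⟩ := hidx (Y, ℓ, L)
    obtain ⟨F1, h1, h1'⟩ := hG (3 * j)
    obtain ⟨F2, h2, h2'⟩ := hG (3 * j + 1)
    obtain ⟨F3, h3, h3'⟩ := hG (3 * j + 2)
    refine ⟨F1, F2, F3, h1, h2, h3, fun A hA z => ⟨?_, ?_, ?_⟩⟩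
    · rw [h1' A hA z]
      unfold gam
      rw [if_pos (by omega), show 3 * j / 3 = j by omega, hj]
    · rw [h2' A hA z]
      unfold gam
      rw [if_neg (by omega), if_pos (by omega), show (3 * j + 1) / 3 = j by omega, hj]
    · rw [h3' A hA z]
      unfold gam
      rw [if_neg (by omega), if_neg (by omega), show (3 * j + 2) / 3 = j by omega, hj]

end Pool.Agent.W2helper58.IR
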