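import Pool.Agent.H620R2.Gauge.Defs
import Mathlib.Analysis.SpecialFunctions.Log.Base
import Mathlib.Analysis.SpecialFunctions.Pow.Real

/-!
# One-way functions and public-key encryption relative to an oracle

(Continues `Pool.Agent.H620R2.Gauge.Defs`.) A probabilistic polynomial-time algorithm relative to
the oracle `A` is a function `F` with `IsFP A F` which gets, besides its input, a string of
polynomially many uniformly random bits.
-/

namespace Pool.Agent.W2helper58.IR

open Pool.Agent.NPC Pool.Agent.H620R2.Gauge

/-- the string `1^n` -/
def un (n : ℕ) : List Bool := List.replicate n true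

/-- Probability of the event `E` for independent uniformly random strings of lengths `a`, `b`. -/
noncomputable def pr2 (a b : ℕ) (E : List Bool → List Bool → Prop) : ℝ :=
  (Nat.card {w : (Fin a → Bool) × (Fin b → Bool) // E (List.ofFn w.1) (List.ofFn w.2)} : ℝ) /
    2 ^ (a + b)

/-- Probability of the event `E` for independent uniformly random strings of lengths `a`, `b`,
`c`. -/
noncomputable def pr3 (a b c : ℕ) (E : List Bool → List Bool → List Bool → Prop) : ℝ :=
  (Nat.card {w : (Fin a → Bool) × (Fin b → Bool) × (Fin c → Bool) //
    E (List.ofFn w.1) (List.ofFn w.2.1) (List.ofFn w.2.2)} : ℝ) / 2 ^ (a + b + c)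

/-- Negligible: for every `k`, `u n ≤ n ^ (-k)` for all large `n`. -/
def Negl (u : ℕ → ℝ) : Prop := ∀ k : ℕ, ∀ᶠ n : ℕ in Filter.atTop, u n * (n : ℝ) ^ k ≤ 1

/-- The probability that the algorithm `D` with `p n` random bits, given `1^n` and `f x` for a
uniformly random `x` of length `n`, finds a preimage of `f x`. -/
noncomputable def inv (f D : List Bool → List Bool) (p : Polynomial ℕ) (n : ℕ) : ℝ :=
  pr2 n (p.eval n) fun x w => f (D (pairBits w (pairBits (un n) (f x)))) = f x

/-- There is a one-way function relative to `A`. -/
def HasOWF (A : Oracle) : Prop := ∃ f : List Bool → List Bool, IsFP A f ∧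
  ∀ (D : List Bool → List Bool) (p : Polynomial ℕ), IsFP A D → Negl (inv f D p)

/-- There is an exponentially hard one-way function relative to `A`: every probabilistic
polynomial-time algorithm inverts it with probability at most `2^(-⌊n/2⌋)` for all large `n`. -/
def HasStrongOWF (A : Oracle) : Prop := ∃ f : List Bool → List Bool, IsFP A f ∧
  ∀ (D : List Bool → List Bool) (p : Polynomial ℕ), IsFP A D →
    ∀ᶠ n : ℕ in Filter.atTop, inv f D p n ≤ (1 / 2) ^ (n / 2)

/-- The functions of a public-key encryption scheme for one-bit messages, and the numbers of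
random bits. Key generation is given by two functions of `1^n` and of its random bits `r`, one for
the public key and one for the secret key. -/
structure Scheme : Type where
  /-- the public key, as a function of `⟨r, 1^n⟩` -/
  gp : List Bool → List Bool
  /-- the secret key, as a function of `⟨r, 1^n⟩` -/
  gs : List Bool → List Bool
  /-- the ciphertext, as a function of `⟨s, ⟨1^n, b pk⟩⟩` (random bits `s`, message `b`) -/
  enc : List Bool → List Bool
  /-- decryption, as a function of `⟨t, ⟨1^n, ⟨sk, c⟩⟩⟩` (random bits `t`, ciphertext `c`) -/
  dec : List Bool → List Bool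
  /-- the number of random bits of key generation -/
  pg : Polynomial ℕ
  /-- the number of random bits of encryption -/
  pe : Polynomial ℕ
  /-- the number of random bits of decryption -/
  pd : Polynomial ℕ

namespace Scheme

variable (Z : Scheme)

/-- the public key -/
def pk (n : ℕ) (r : List Bool) : List Bool := Z.gp (pairBits r (un n))

/-- the secret key -/
def sk (n : ℕ) (r : List Bool) : List Bool := Z.gs (pairBits r (un n))

/-- the ciphertext of `b` -/
def ct (n : ℕ) (k s : List Bool) (b : Bool) : List Bool :=
  Z.enc (pairBits s (pairBits (un n) (b :: k)))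

/-- The probability that the ciphertext of `b` is decrypted correctly. -/
noncomputable def corr (n : ℕ) (b : Bool) : ℝ :=
  pr3 (Z.pg.eval n) (Z.pe.eval n) (Z.pd.eval n) fun r s t =>
    Z.dec (pairBits t (pairBits (un n) (pairBits (Z.sk n r) (Z.ct n (Z.pk n r) s b)))) = [b]

/-- The probability that the algorithm `D` with `p n` random bits outputs `1` when it is given
`1^n`, the public key and the ciphertext of `b`. -/
noncomputable def out (D : List Bool → List Bool) (p : Polynomial ℕ) (n : ℕ) (b : Bool) : ℝ :=
  pr3 (Z.pg.eval n) (Z.pe.eval n) (p.eval n) fun r s w =>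
    D (pairBits w (pairBits (un n) (pairBits (Z.pk n r) (Z.ct n (Z.pk n r) s b)))) = [true]

/-- The functions of the scheme are computable in polynomial time relative to `A`. -/
def Comp (A : Oracle) : Prop := IsFP A Z.gp ∧ IsFP A Z.gs ∧ IsFP A Z.enc ∧ IsFP A Z.dec

end Scheme

/-- There is a public-key encryption scheme relative to `A`: the error of decryption is
negligible, and so is the advantage of every probabilistic polynomial-time algorithm. -/
def HasPKE (A : Oracle) : Prop := ∃ Z : Scheme, Z.Comp A ∧
  (∀ b : Bool, Negl fun n => 1 - Z.corr n b) ∧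
  ∀ (D : List Bool → List Bool) (p : Polynomial ℕ), IsFP A D →
    Negl fun n => |Z.out D p n true - Z.out D p n false|

/-- There is a weak public-key encryption scheme relative to `A`: for all large `n` the error of
decryption is at most `1/100`, and every probabilistic polynomial-time algorithm has advantage
less than `1/2` for all large `n`. -/
def HasWeakPKE (A : Oracle) : Prop := ∃ Z : Scheme, Z.Comp A ∧
  (∀ b : Bool, ∀ᶠ n : ℕ in Filter.atTop, 1 - Z.corr n b ≤ 1 / 100) ∧
  ∀ (D : List Bool → List Bool) (p : Polynomial ℕ), IsFP A D →
    ∀ᶠ n : ℕ in Filter.atTop, |Z.out D p n true - Z.out D p n false| < 1 / 2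

end Pool.Agent.W2helper58.IR
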