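import Pool.Agent.W2helper58.IR.Fin

/-!
# The gauges of the Hausdorff measures
-/

set_option autoImplicit false

namespace Pool.Agent.W2helper58.IR

open Filter

theorem dim_cond {s : ℝ} (hs : s < 1) : ∃ ε : ℝ, 0 < ε ∧
    ∀ᶠ N : ℕ in atTop, (2 : ℝ) ^ (Real.logb 2 N) ^ ε ≤ (1 - s) * N := by
  refine ⟨1 / 2, by norm_num, ?_⟩
  have h1 : Tendsto (fun N : ℕ => (N : ℝ)) atTop atTop := tendsto_natCast_atTop_atTop
  filter_upwards [h1.eventually_ge_atTop 16, h1.eventually_ge_atTop ((1 / (1 - s)) ^ 2)]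
    with N h2 h3
  have hN : (0 : ℝ) < N := by linarith
  have h4 : (4 : ℝ) ≤ Real.logb 2 N := by
    rw [Real.le_logb_iff_rpow_le (by norm_num) hN]
    norm_num
    exact_mod_cast h2
  have h5 : (Real.logb 2 N) ^ (1 / 2 : ℝ) ≤ Real.logb 2 N / 2 := by
    rw [← Real.sqrt_eq_rpow, Real.sqrt_le_left (by linarith)]
    nlinarith
  have h6 : (2 : ℝ) ^ (Real.logb 2 N / 2) = Real.sqrt N := by
    rw [Real.sqrt_eq_rpow, div_eq_mul_one_div, Real.rpow_mul (by norm_num),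
      Real.rpow_logb (by norm_num) (by norm_num) hN]
  have h7 : (2 : ℝ) ^ (Real.logb 2 N) ^ (1 / 2 : ℝ) ≤ Real.sqrt N := by
    rw [← h6]
    exact Real.rpow_le_rpow_of_exponent_le (by norm_num) h5
  have h8 : 0 < 1 - s := by linarith
  have h9 : 1 / (1 - s) ≤ Real.sqrt N := Real.le_sqrt_of_sq_le h3
  have h10 : 1 ≤ (1 - s) * Real.sqrt N := by
    rw [div_le_iff₀ h8] at h9
    linarith
  have h11 := Real.mul_self_sqrt hN.le
  calc (2 : ℝ) ^ (Real.logb 2 N) ^ (1 / 2 : ℝ) ≤ Real.sqrt N := h7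
    _ ≤ ((1 - s) * Real.sqrt N) * Real.sqrt N := by
      nlinarith [Real.sqrt_nonneg (N : ℝ)]
    _ = (1 - s) * N := by rw [mul_assoc, h11]

end Pool.Agent.W2helper58.IR
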