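import Pool.Agent.W2helper58.IR.Main

/-!
# The final steps
-/

set_option autoImplicit false

namespace Pool.Agent.W2helper58.IR

open Pool.Agent.NPC Pool.Agent.H620R2.Gauge Pool.Agent.W2helper57.LC MeasureTheory Filter

open Pool.Agent.W2helper58.GU (acc)

open Pool.Agent.H628R3.RO (cyl ofL)

theorem pr3_add_le {a b c : ℕ} {E E' : List Bool → List Bool → List Bool → Prop}
    (h : ∀ r s t, ¬ (E r s t ∧ E' r s t)) : pr3 a b c E + pr3 a b c E' ≤ 1 := by
  rw [pr3_ind, pr3_ind, ← add_div, div_le_one (by positivity)]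
  simp only [← Finset.sum_add_distrib]
  have h1 : ∀ (r : Fin a → Bool) (s : Fin b → Bool) (t : Fin c → Bool),
      ind (E (List.ofFn r) (List.ofFn s) (List.ofFn t)) +
        ind (E' (List.ofFn r) (List.ofFn s) (List.ofFn t)) ≤ 1 := by
    intro r s t
    have h2 := h (List.ofFn r) (List.ofFn s) (List.ofFn t)
    unfold ind
    by_cases h3 : E (List.ofFn r) (List.ofFn s) (List.ofFn t)
    · by_cases h4 : E' (List.ofFn r) (List.ofFn s) (List.ofFn t)
      · exact absurd ⟨h3, h4⟩ h2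
      · simp [h3, h4]
    · by_cases h4 : E' (List.ofFn r) (List.ofFn s) (List.ofFn t)
      · simp [h3, h4]
      · simp [h3, h4]
  refine (Finset.sum_le_sum fun r _ => Finset.sum_le_sum fun s _ => Finset.sum_le_sum fun t _ =>
    h1 r s t).trans (le_of_eq ?_)
  simp only [Finset.sum_const, Finset.card_univ, Fintype.card_pi, Fintype.card_bool,
    Finset.prod_const, Fintype.card_fin, nsmul_eq_mul, mul_one]
  push_cast
  ring

theorem adv_ge {T : Set (List Bool)} {G B : Oracle} {Y : Sch} {n : ℕ}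
    {D : List Bool → List Bool} (h : af T G Y n (fun _ => D) B ≤ 1 / 4) :
    1 / 2 ≤ |(Y.at (mix T G B)).out D Y.pd n true - (Y.at (mix T G B)).out D Y.pd n false| := by
  unfold af fl at h
  have h1 := pr3_add_le (a := Y.pg.eval n) (b := Y.pe.eval n) (c := Y.pd.eval n)
    (E := fun r s t => D (pairBits t (pairBits (un n) (pairBits ((Y.at (mix T G B)).pk n r)
    ((Y.at (mix T G B)).ct n ((Y.at (mix T G B)).pk n r) s false)))) = [false])
    (E' := fun r s t => D (pairBits t (pairBits (un n) (pairBits ((Y.at (mix T G B)).pk n r)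
    ((Y.at (mix T G B)).ct n ((Y.at (mix T G B)).pk n r) s false)))) = [true])
    (fun r s t h => by
      have h2 := h.1.symm.trans h.2
      simp at h2)
  refine le_trans ?_ (le_abs_self _)
  have e1 : (Y.at (mix T G B)).out D Y.pd n true = pr3 (Y.pg.eval n) (Y.pe.eval n) (Y.pd.eval n)
    (fun r s t => D (pairBits t (pairBits (un n) (pairBits ((Y.at (mix T G B)).pk n r)
    ((Y.at (mix T G B)).ct n ((Y.at (mix T G B)).pk n r) s true)))) = [true]) := rfl
  have e2 : (Y.at (mix T G B)).out D Y.pd n false = pr3 (Y.pg.eval n) (Y.pe.eval n)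
    (Y.pd.eval n) (fun r s t => D (pairBits t (pairBits (un n)
    (pairBits ((Y.at (mix T G B)).pk n r)
    ((Y.at (mix T G B)).ct n ((Y.at (mix T G B)).pk n r) s false)))) = [true]) := rfl
  rw [e1, e2]
  linarith

theorem exists_sch {A : Oracle} {Z : Scheme} (hZ : Z.Comp A) : ∃ Y : Sch, Y.at A = Z := by
  obtain ⟨⟨M1, h1⟩, ⟨M2, h2⟩, ⟨M3, h3⟩, ⟨M4, h4⟩⟩ := hZ
  refine ⟨⟨M1, M2, M3, M4, Z.pg, Z.pe, Z.pd⟩, ?_⟩
  have e : ∀ {M : Alg} {F : List Bool → List Bool}, (∀ x, M.out A x = some (F x)) →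
      acc M A = F := by
    intro M F h
    funext x
    unfold acc
    rw [h]
    rfl
  unfold Sch.at
  simp only [e h1, e h2, e h3, e h4]

theorem not_weak {T : Set (List Bool)} {G B : Oracle}
    (h : ∀ Y : Sch, (∀ᶠ n : ℕ in atTop, cf T G Y n B ≤ 1 / 100) →
      ∃ D : List Bool → List Bool, IsFP (mix T G B) D ∧
        ∃ᶠ n : ℕ in atTop, af T G Y n (fun _ => D) B ≤ 1 / 4) :
    ¬ HasWeakPKE (mix T G B) := by
  rintro ⟨Z, hZ, hcorr, hsec⟩
  obtain ⟨Y, rfl⟩ := exists_sch hZ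
  obtain ⟨D, hD, hfr⟩ := h Y (by
    filter_upwards [hcorr false, hcorr true] with n h1 h2
    have e : cf T G Y n B = 1 - ((Y.at (mix T G B)).corr n false +
      (Y.at (mix T G B)).corr n true) / 2 := rfl
    rw [e]
    linarith)
  obtain ⟨n, h1, h2⟩ := (hfr.and_eventually (hsec D Y.pd hD)).exists
  have h3 := adv_ge h1
  linarith

/-- the analogue for the usual notions -/
theorem HasPKE.weak {A : Oracle} (h : HasPKE A) : HasWeakPKE A := by
  obtain ⟨Z, hZ, hcorr, hsec⟩ := h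
  refine ⟨Z, hZ, fun b => ?_, fun D p hD => ?_⟩
  · filter_upwards [hcorr b 1, eventually_ge_atTop 100] with n h1 h2
    rw [pow_one] at h1
    have h3 : (100 : ℝ) ≤ n := by exact_mod_cast h2
    by_contra h4
    push Not at h4
    nlinarith
  · filter_upwards [hsec D p hD 1, eventually_ge_atTop 3] with n h1 h2
    rw [pow_one] at h1
    have h3 : (3 : ℝ) ≤ n := by exact_mod_cast h2
    by_contra h4
    push Not at h4
    nlinarith

theorem HasStrongOWF.owf {A : Oracle} (h : HasStrongOWF A) : HasOWF A := by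
  obtain ⟨f, hf, h⟩ := h
  refine ⟨f, hf, fun D p hD k => ?_⟩
  have h1 : Tendsto (fun n : ℕ => ((n : ℝ) ^ k) * (1 / 2 : ℝ) ^ n) atTop (nhds 0) :=
    tendsto_pow_const_mul_const_pow_of_lt_one k (by norm_num) (by norm_num)
  have h2 : Tendsto (fun n : ℕ => n / 2) atTop atTop :=
    Filter.tendsto_atTop_atTop.2 fun b => ⟨2 * b, fun n hn => by omega⟩
  have h3 := (h1.comp h2).const_mul ((3 : ℝ) ^ k)
  rw [mul_zero] at h3
  filter_upwards [h D p hD, h3.eventually_lt_const one_pos, eventually_ge_atTop 2]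
    with n h4 h5 h6
  have h7 : (n : ℝ) ≤ 3 * ((n / 2 : ℕ) : ℝ) := by
    have : n ≤ 3 * (n / 2) := by omega
    exact_mod_cast this
  have h8 : (n : ℝ) ^ k ≤ 3 ^ k * ((n / 2 : ℕ) : ℝ) ^ k := by
    rw [← mul_pow]
    exact pow_le_pow_left₀ (by positivity) h7 k
  simp only [Function.comp_apply] at h5
  have h9 : (0 : ℝ) ≤ (1 / 2) ^ (n / 2) := by positivity
  calc inv f D p n * (n : ℝ) ^ k ≤ (1 / 2) ^ (n / 2) * (n : ℝ) ^ k :=
        mul_le_mul_of_nonneg_right h4 (by positivity)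
    _ ≤ (1 / 2) ^ (n / 2) * (3 ^ k * ((n / 2 : ℕ) : ℝ) ^ k) := mul_le_mul_of_nonneg_left h8 h9
    _ = 3 ^ k * (((n / 2 : ℕ) : ℝ) ^ k * (1 / 2) ^ (n / 2)) := by ring
    _ ≤ 1 := h5.le

instance : Countable Sch := by
  obtain ⟨a, ha⟩ := exists_alg
  have h1 : Countable Alg := ha.countable
  have h2 := CC.poly_countable
  let F : Sch → (Alg × Alg × Alg × Alg) × (Polynomial ℕ × Polynomial ℕ × Polynomial ℕ) :=
    fun Y => ((Y.MP, Y.MS, Y.ME, Y.MD), (Y.pg, Y.pe, Y.pd))
  have hF : Function.Injective F := by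
    intro Y Y' h
    obtain ⟨_, _, _, _, _, _, _⟩ := Y
    obtain ⟨_, _, _, _, _, _, _⟩ := Y'
    simp only [F, Prod.mk.injEq] at h
    obtain ⟨⟨rfl, rfl, rfl, rfl⟩, rfl, rfl, rfl⟩ := h
    rfl
  exact hF.countable

theorem final (htree : P_tree) (hfin : P_fin) (hatt : P_att) (htr : P_trans) (hdens : P_dens)
    (howf : ∀ (T : Set (List Bool)) (G : Oracle), (∀ u : List Bool, false :: false :: u ∉ T) →
      ∀ᵐ B ∂ranO, HasStrongOWF (mix T G B))
    (hguide : P_guide) (f : ℕ → ℝ)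
    (hf : ∃ ε : ℝ, 0 < ε ∧ ∀ᶠ N : ℕ in atTop, (2 : ℝ) ^ (Real.logb 2 N) ^ ε ≤ f N)
    (O : Set Oracle) (hO : ∀ A : Oracle, HasStrongOWF A → ¬ HasWeakPKE A → A ∈ O) :
    ¬ Null f O := by
  classical
  choose bd hbd using htree
  have hbd' : Bd bd := hbd
  obtain ⟨ε, hε, hf⟩ := hf
  obtain ⟨K, hK⟩ := exists_nat_gt (1 / ε)
  have hK' : 1 < ε * K := by
    rw [div_lt_iff₀ hε] at hK
    linarith
  have hK1 : 1 ≤ K := by
    rcases Nat.eq_zero_or_pos K with h | h
    · subst h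
      simp at hK'
      linarith
    · exact h
  obtain ⟨T, hT, hs, G, qn, bs, hgood, hF⟩ := exists_guide hguide hfin hbd' K hK1
  have h1 : ∀ᵐ B ∂ranO, ∀ Y : Sch, (∀ᶠ n : ℕ in atTop, cf T G Y n B ≤ 1 / 100) →
      ∃ D : List Bool → List Bool, IsFP (mix T G B) D ∧
        ∃ᶠ n : ℕ in atTop, af T G Y n (fun _ => D) B ≤ 1 / 4 :=
    ae_all_iff.2 fun Y => one_scheme htr hdens hatt hbd' hgood Y (hF Y)
  have h2 := howf T G hT
  have h3 : ∀ᵐ B ∂ranO, B ∈ {B | HasStrongOWF (mix T G B) ∧ ¬ HasWeakPKE (mix T G B)} := by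
    filter_upwards [h1, h2] with B h1 h2
    exact ⟨h2, not_weak h1⟩
  have hpos : 0 < ranO {B | HasStrongOWF (mix T G B) ∧ ¬ HasWeakPKE (mix T G B)} := by
    rw [pos_iff_ne_zero]
    intro h0
    have h4 : ranO {B | HasStrongOWF (mix T G B) ∧ ¬ HasWeakPKE (mix T G B)}ᶜ = 0 := h3
    have h5 : ranO (Set.univ : Set Oracle) ≤ 0 := by
      rw [← Set.union_compl_self
        {B | HasStrongOWF (mix T G B) ∧ ¬ HasWeakPKE (mix T G B)}]
      refine (measure_union_le _ _).trans ?_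
      rw [h0, h4, add_zero]
    rw [measure_univ] at h5
    simp at h5
  obtain ⟨N₀, hN₀⟩ := eventually_atTop.1 (hf.and (hs ε hε hK'))
  refine not_null_of f _ hpos (mix T G) T (fun B y hy => ?_)
    (∑ N ∈ Finset.range N₀, (|f N| + N)) (fun N => ?_) O (fun B hB => hO _ hB.1 hB.2)
  · unfold mix
    rw [if_neg hy]
  · have hc0 : (0 : ℝ) ≤ ∑ N ∈ Finset.range N₀, (|f N| + N) :=
      Finset.sum_nonneg fun N _ => by positivity
    by_cases hN : N < N₀
    · have h5 : |f N| + N ≤ ∑ N ∈ Finset.range N₀, (|f N| + (N : ℝ)) :=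
        Finset.single_le_sum (f := fun N : ℕ => |f N| + (N : ℝ)) (fun N _ => by positivity)
          (Finset.mem_range.2 hN)
      have h6 : (((Finset.range N).filter (fun i => str i ∈ T)).card : ℝ) ≤ N := by
        have := (Finset.card_filter_le (Finset.range N) (fun i => str i ∈ T))
        rw [Finset.card_range] at this
        exact_mod_cast this
      have h7 := neg_abs_le (f N)
      linarith
    · obtain ⟨h5, h6⟩ := hN₀ N (by omega)
      have h7 : (((Finset.range N).filter (fun i => str i ∈ T)).card : ℝ) ≤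
          2 ^ (Real.logb 2 N) ^ ε := by
        convert h6
      linarith

end Pool.Agent.W2helper58.IR
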