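import Pool.Agent.W2helper58.IR.Avg
import Pool.Agent.H620R2.GaugeR.R8

/-!
# No encryption relative to almost all oracles with the guide
-/

set_option autoImplicit false

namespace Pool.Agent.W2helper58.IR

open Pool.Agent.NPC Pool.Agent.H620R2.Gauge Pool.Agent.W2helper57.LC MeasureTheory Filter

open Pool.Agent.W2helper58.GU (acc)

open Pool.Agent.H628R3.RO (cyl ofL)

theorem int_eq (htr : P_trans) {T : Set (List Bool)} {ℓ : ℕ} {L : List (List Bool)} {b : ℕ}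
    (w : (Xs T ℓ b → Bool) → ℝ) {h : Oracle → ℝ}
    (hh : ∀ B ∈ cyl ℓ L, h B = w (fun x => B x.1)) :
    ∫ B in cyl ℓ L, h B ∂ranO =
      (ranO (cyl ℓ L)).toReal * ((∑ ω : Xs T ℓ b → Bool, w ω) / 2 ^ (Xs T ℓ b).card) := by
  rw [setIntegral_congr_fun (Pool.Agent.W2helper58.RU.measurableSet_cyl ℓ L) hh]
  rw [htr ℓ L (Xs T ℓ b) (fun B => w (fun x => B x.1)) (fun u hu => (mem_Xs.1 hu).2.1) ?_]
  · congr 2
    refine Finset.sum_congr rfl fun ω _ => ?_
    congr 1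
    funext x
    unfold ovr
    rw [if_neg (by have := (mem_Xs.1 x.2).2.1; omega), dif_pos x.2]
  · intro A A' hA
    change w _ = w _
    congr 1
    funext x
    exact hA x.1 (Or.inr x.2)

section

variable {Y : Sch} {n : ℕ}

theorem fl_mem (E : List Bool → List Bool → List Bool → Bool → Prop) :
    0 ≤ fl Y n E ∧ fl Y n E ≤ 1 := by
  have hpos : (0 : ℝ) < 2 ^ (Y.pg.eval n) * Fintype.card (SS Y n) := by
    rw [card_SS]
    positivity
  rw [fl_eq]
  constructor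
  · positivity
  · rw [div_le_one hpos]
    have h : ∀ r : Fin (Y.pg.eval n) → Bool, (Nat.card {s : SS Y n //
        ¬ E (List.ofFn r) (List.ofFn s.1) (List.ofFn s.2.1) s.2.2} : ℝ) ≤
        Fintype.card (SS Y n) := by
      intro r
      have h1 := Nat.card_le_card_of_injective (Subtype.val : {s : SS Y n //
        ¬ E (List.ofFn r) (List.ofFn s.1) (List.ofFn s.2.1) s.2.2} → SS Y n)
        Subtype.val_injective
      rw [Nat.card_eq_fintype_card (α := SS Y n)] at h1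
      exact_mod_cast h1
    refine (Finset.sum_le_sum fun r _ => h r).trans (le_of_eq ?_)
    simp

end

section

variable {bd : Alg → Polynomial ℕ} (hbd : Bd bd) {T : Set (List Bool)} {G : Oracle}
  (Y : Sch)

theorem mix_agree {b : ℕ} {A A' : Oracle} (h : ∀ u : List Bool, u.length < b → A u = A' u)
    {q : List Bool} (hq : q.length < b) : mix T G A q = mix T G A' q := by
  unfold mix
  split_ifs
  · rfl
  · exact h q hq

include hbd

theorem loc_pk {n : ℕ} {A A' : Oracle}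
    (h : ∀ u : List Bool, u.length < (bb bd Y 0).eval n → A u = A' u)
    (r : Fin (Y.pg.eval n) → Bool) :
    acc Y.MP (mix T G A') (xG Y n r) = acc Y.MP (mix T G A) (xG Y n r) :=
  ((hbd Y.MP (mix T G A) (xG Y n r)).2.2.2 _
    fun q hq => (mix_agree h (q_MP Y 0 n hbd _ r q hq)).symm).2

theorem loc_sk {n : ℕ} {A A' : Oracle}
    (h : ∀ u : List Bool, u.length < (bb bd Y 0).eval n → A u = A' u)
    (r : Fin (Y.pg.eval n) → Bool) :
    acc Y.MS (mix T G A') (xG Y n r) = acc Y.MS (mix T G A) (xG Y n r) :=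
  ((hbd Y.MS (mix T G A) (xG Y n r)).2.2.2 _
    fun q hq => (mix_agree h (q_MS Y 0 n hbd _ r q hq)).symm).2

theorem loc_ct {n : ℕ} {A A' : Oracle}
    (h : ∀ u : List Bool, u.length < (bb bd Y 0).eval n → A u = A' u) {k : List Bool}
    (hk : k.length ≤ (κ bd Y).eval n) (s : SS Y n) :
    acc Y.ME (mix T G A') (xE Y n k s) = acc Y.ME (mix T G A) (xE Y n k s) :=
  ((hbd Y.ME (mix T G A) (xE Y n k s)).2.2.2 _
    fun q hq => (mix_agree h (q_ME Y 0 n hbd _ hk s q hq)).symm).2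

theorem loc_dec {n : ℕ} {A A' : Oracle}
    (h : ∀ u : List Bool, u.length < (bb bd Y 0).eval n → A u = A' u) {k c : List Bool}
    (hk : k.length ≤ (κ bd Y).eval n) (hc : c.length ≤ (χ bd Y).eval n) (s : SS Y n) :
    acc Y.MD (mix T G A') (xD Y n k c s) = acc Y.MD (mix T G A) (xD Y n k c s) :=
  ((hbd Y.MD (mix T G A) (xD Y n k c s)).2.2.2 _
    fun q hq => (mix_agree h (q_MD Y 0 n hbd _ hk hc s q hq)).symm).2

theorem cf_loc (n : ℕ) : ∃ b : ℕ, ∀ A A' : Oracle,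
    (∀ u : List Bool, u.length < b → A u = A' u) → cf T G Y n A = cf T G Y n A' := by
  refine ⟨(bb bd Y 0).eval n, fun A A' h => ?_⟩
  unfold cf
  rw [fl_eq, fl_eq]
  congr 1
  refine Finset.sum_congr rfl fun r _ => ?_
  congr 1
  refine Nat.card_congr (Equiv.subtypeEquivRight fun s => ?_)
  rw [not_iff_not]
  have e1 : (Y.at (mix T G A)).pk n (List.ofFn r) = (Y.at (mix T G A')).pk n (List.ofFn r) :=
    (loc_pk hbd Y h r).symm
  have e2 : (Y.at (mix T G A)).sk n (List.ofFn r) = (Y.at (mix T G A')).sk n (List.ofFn r) :=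
    (loc_sk hbd Y h r).symm
  have l1 : ((Y.at (mix T G A')).pk n (List.ofFn r)).length ≤ (κ bd Y).eval n :=
    len_pk Y n hbd _ _
  have l2 : ((Y.at (mix T G A')).sk n (List.ofFn r)).length ≤ (κ bd Y).eval n :=
    len_sk Y n hbd _ _
  have e3 : (Y.at (mix T G A)).ct n ((Y.at (mix T G A')).pk n (List.ofFn r)) (List.ofFn s.1)
      s.2.2 = (Y.at (mix T G A')).ct n ((Y.at (mix T G A')).pk n (List.ofFn r)) (List.ofFn s.1)
      s.2.2 := (loc_ct hbd Y h l1 s).symm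
  have l3 : ((Y.at (mix T G A')).ct n ((Y.at (mix T G A')).pk n (List.ofFn r)) (List.ofFn s.1)
      s.2.2).length ≤ (χ bd Y).eval n := len_ct Y n hbd _ l1 s
  have e4 : (Y.at (mix T G A)).dec (pairBits (List.ofFn s.2.1) (pairBits (un n)
      (pairBits ((Y.at (mix T G A')).sk n (List.ofFn r))
        ((Y.at (mix T G A')).ct n ((Y.at (mix T G A')).pk n (List.ofFn r)) (List.ofFn s.1)
      s.2.2)))) = (Y.at (mix T G A')).dec (pairBits (List.ofFn s.2.1) (pairBits (un n)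
      (pairBits ((Y.at (mix T G A')).sk n (List.ofFn r))
        ((Y.at (mix T G A')).ct n ((Y.at (mix T G A')).pk n (List.ofFn r)) (List.ofFn s.1)
      s.2.2)))) := (loc_dec hbd Y h l2 l3 s).symm
  rw [e1, e2, e3, e4]

theorem af_loc {D : Oracle → List Bool → List Bool} (hD : UFP D) (n : ℕ) : ∃ b : ℕ,
    ∀ A A' : Oracle, (∀ u : List Bool, u.length < b → A u = A' u) →
    af T G Y n D A = af T G Y n D A' := by
  obtain ⟨bD, hbD⟩ := s_LOC D hD
  refine ⟨(bb bd Y 0).eval n + bD.eval ((lD bd Y).eval n) + 1, fun A A' h' => ?_⟩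
  have h : ∀ u : List Bool, u.length < (bb bd Y 0).eval n → A u = A' u :=
    fun u hu => h' u (by omega)
  unfold af
  rw [fl_eq, fl_eq]
  congr 1
  refine Finset.sum_congr rfl fun r _ => ?_
  congr 1
  refine Nat.card_congr (Equiv.subtypeEquivRight fun s => ?_)
  rw [not_iff_not]
  have e1 : (Y.at (mix T G A)).pk n (List.ofFn r) = (Y.at (mix T G A')).pk n (List.ofFn r) :=
    (loc_pk hbd Y h r).symm
  have l1 : ((Y.at (mix T G A')).pk n (List.ofFn r)).length ≤ (κ bd Y).eval n :=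
    len_pk Y n hbd _ _
  have e3 : (Y.at (mix T G A)).ct n ((Y.at (mix T G A')).pk n (List.ofFn r)) (List.ofFn s.1)
      s.2.2 = (Y.at (mix T G A')).ct n ((Y.at (mix T G A')).pk n (List.ofFn r)) (List.ofFn s.1)
      s.2.2 := (loc_ct hbd Y h l1 s).symm
  have l3 : ((Y.at (mix T G A')).ct n ((Y.at (mix T G A')).pk n (List.ofFn r)) (List.ofFn s.1)
      s.2.2).length ≤ (χ bd Y).eval n := len_ct Y n hbd _ l1 s
  rw [e1, e3]
  rw [hbD (mix T G A) (mix T G A')]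
  intro q hq
  refine mix_agree h' ?_
  have l4 := length_xD (bd := bd) Y n l1 l3 s
  have l5 : q.length ≤ bD.eval (xD Y n ((Y.at (mix T G A')).pk n (List.ofFn r))
    ((Y.at (mix T G A')).ct n ((Y.at (mix T G A')).pk n (List.ofFn r)) (List.ofFn s.1)
      s.2.2) s).length := hq
  have l6 := eval_mono bD l4
  omega

end

/-- for one scheme -/
theorem one_scheme (htr : P_trans) (hdens : P_dens) (hatt : P_att)
    {bd : Alg → Polynomial ℕ} (hbd : Bd bd) {T : Set (List Bool)} {G : Oracle}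
    {qn : (Y : Sch) → (ℓ : ℕ) → (L : List (List Bool)) → (G : Oracle) → (n : ℕ) →
        List Bool → List Bool → Xs T ℓ ((bb bd Y ℓ).eval n)}
    {bs : (Y : Sch) → (ℓ : ℕ) → (L : List (List Bool)) → (G : Oracle) → (n : ℕ) →
        List Bool → List Bool →
        (Fin (Y.pg.eval n) → Bool) × (Xs T ℓ ((bb bd Y ℓ).eval n) → Bool)}
    (hgood : ∀ Y ℓ L G n, GoodStrat (sys Y T G ℓ L n hbd) ((kp bd Y).eval n) (qn Y ℓ L G n)
        (bs Y ℓ L G n))
    (Y : Sch)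
    (hF : ∀ ℓ L, ∃ F1 F2 F3 : Oracle → List Bool → List Bool, UFP F1 ∧ UFP F2 ∧ UFP F3 ∧
        ∀ A : Oracle, (∀ u ∈ T, A u = G u) → ∀ z, F1 A z = g0 qn Y ℓ L G z ∧
          F2 A z = g1 hbd bs Y ℓ L G z ∧ F3 A z = g2 hbd bs Y ℓ L G z) :
    ∀ᵐ B ∂ranO, (∀ᶠ n : ℕ in atTop, cf T G Y n B ≤ 1 / 100) →
      ∃ D : List Bool → List Bool, IsFP (mix T G B) D ∧
        ∃ᶠ n : ℕ in atTop, af T G Y n (fun _ => D) B ≤ 1 / 4 := by
  have hmix : ∀ B : Oracle, ∀ u ∈ T, mix T G B u = G u := by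
    intro B u hu
    unfold mix
    rw [if_pos hu]
  choose F1 F2 F3 u1 u2 u3 hF using hF
  have hD : ∀ ℓ L, UFP (att (F1 ℓ L) (F2 ℓ L) (F3 ℓ L) (kp bd Y) Y.MD) :=
    fun ℓ L => hatt _ _ _ _ _ (u1 ℓ L) (u2 ℓ L) (u3 ℓ L)
  have h := hdens (fun n B => cf T G Y n B)
    (fun ℓ L n B => af T G Y n (att (F1 ℓ L) (F2 ℓ L) (F3 ℓ L) (kp bd Y) Y.MD) B)
    (fun n B => fl_mem _) (fun ℓ L n B => fl_mem _) (fun n => cf_loc hbd Y n)
    (fun ℓ L n => af_loc hbd Y (hD ℓ L) n) ?_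
  · filter_upwards [h] with B hB hc
    obtain ⟨ℓ, L, hl⟩ := hB hc
    obtain ⟨M, hM⟩ := hD ℓ L
    exact ⟨att (F1 ℓ L) (F2 ℓ L) (F3 ℓ L) (kp bd Y) Y.MD (mix T G B), ⟨M, hM (mix T G B)⟩, hl⟩
  · intro ℓ L
    refine Eventually.of_forall fun n => ?_
    have e1 := int_eq htr (T := T) (L := L) (cw bd hbd T G Y ℓ L n)
      (h := fun B => cf T G Y n B) (fun B hB => cf_eq hB)
    have e2 := int_eq htr (T := T) (L := L) (aw bd hbd T G Y ℓ L n qn bs)
      (h := fun B => af T G Y n (att (F1 ℓ L) (F2 ℓ L) (F3 ℓ L) (kp bd Y) Y.MD) B)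
      (fun B hB => af_eq hB (fun z => (hF ℓ L _ (hmix B) z).1)
        (fun z => (hF ℓ L _ (hmix B) z).2.1) (fun z => (hF ℓ L _ (hmix B) z).2.2))
    rw [e1, e2]
    have h3 := sum_aw_le (hgood Y ℓ L (ct0 T ((bb bd Y ℓ).eval n) G) n)
    have h4 : (0 : ℝ) < 2 ^ (Xs T ℓ ((bb bd Y ℓ).eval n)).card := by positivity
    have h5 : (∑ ω, aw bd hbd T G Y ℓ L n qn bs ω) / 2 ^ (Xs T ℓ ((bb bd Y ℓ).eval n)).card ≤
        (∑ ω, cw bd hbd T G Y ℓ L n ω) / 2 ^ (Xs T ℓ ((bb bd Y ℓ).eval n)).card + 1 / 16 := by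
      rw [div_add' _ _ _ h4.ne']
      exact div_le_div_of_nonneg_right h3 h4.le
    have h6 : 0 ≤ (ranO (cyl ℓ L)).toReal := ENNReal.toReal_nonneg
    calc _ ≤ (ranO (cyl ℓ L)).toReal * ((∑ ω, cw bd hbd T G Y ℓ L n ω) /
        2 ^ (Xs T ℓ ((bb bd Y ℓ).eval n)).card + 1 / 16) := mul_le_mul_of_nonneg_left h5 h6
      _ = _ := by ring

end Pool.Agent.W2helper58.IR
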