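import Pool.Agent.W2helper58.IR.Code

/-!
# The attack, run with the true oracle
-/

set_option autoImplicit false

namespace Pool.Agent.W2helper58.IR

open Pool.Agent.NPC Pool.Agent.H620R2.Gauge Pool.Agent.W2helper57.LC MeasureTheory

open Pool.Agent.W2helper58.GU (acc)

open Pool.Agent.H628R3.RO (cyl ofL)

theorem length_ans {X : Type} (q : List Bool → X) (ω : X → Bool) (k : ℕ) :
    (ans q ω k).length = k := by
  induction k with
  | zero => rfl
  | succ k ih => simp [ans, ih]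

section

variable {bd : Alg → Polynomial ℕ} {hbd : Bd bd} {T : Set (List Bool)} {G B : Oracle}
  {qn : (Y : Sch) → (ℓ : ℕ) → (L : List (List Bool)) → (G : Oracle) → (n : ℕ) →
        List Bool → List Bool → Xs T ℓ ((bb bd Y ℓ).eval n)}
  {bs : (Y : Sch) → (ℓ : ℕ) → (L : List (List Bool)) → (G : Oracle) → (n : ℕ) →
        List Bool → List Bool →
        (Fin (Y.pg.eval n) → Bool) × (Xs T ℓ ((bb bd Y ℓ).eval n) → Bool)}
  {Y : Sch} {ℓ : ℕ} {L : List (List Bool)} {F1 F2 F3 : Oracle → List Bool → List Bool}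
  {kq : Polynomial ℕ} (n : ℕ)

theorem fin_eq (h1 : ∀ z, F1 (mix T G B) z = g0 qn Y ℓ L G z) (k c : List Bool) :
    fin F1 kq (mix T G B) (pairBits (un n) (pairBits k c)) =
      pairBits (un n) (pairBits k (ans (qn Y ℓ L (ct0 T ((bb bd Y ℓ).eval n) G) n k)
        (fun x => B x.1) (kq.eval n))) := by
  unfold fin
  rw [unpair_pairBits]
  simp only [unpair_pairBits, length_un]
  have key : ∀ i ≤ kq.eval n, (stp F1 kq (mix T G B))^[i] (pairBits (un n) (pairBits k [])) =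
      pairBits (un n) (pairBits k (ans (qn Y ℓ L (ct0 T ((bb bd Y ℓ).eval n) G) n k)
        (fun x => B x.1) i)) := by
    intro i hi
    induction i with
    | zero => rfl
    | succ i ih =>
      rw [Function.iterate_succ_apply', ih (by omega)]
      unfold stp
      simp only [unpair_pairBits, length_un, length_ans]
      rw [if_pos (by omega), h1]
      unfold g0
      simp only [unpair_pairBits, length_un]
      unfold g0'
      have h2 := (mem_Xs.1 (qn Y ℓ L (ct0 T ((bb bd Y ℓ).eval n) G) n k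
        (ans (qn Y ℓ L (ct0 T ((bb bd Y ℓ).eval n) G) n k) (fun x => B x.1) i)).2).2.2
      have h3 : mix T G B (qn Y ℓ L (ct0 T ((bb bd Y ℓ).eval n) G) n k
        (ans (qn Y ℓ L (ct0 T ((bb bd Y ℓ).eval n) G) n k) (fun x => B x.1) i)).1 =
          B (qn Y ℓ L (ct0 T ((bb bd Y ℓ).eval n) G) n k
        (ans (qn Y ℓ L (ct0 T ((bb bd Y ℓ).eval n) G) n k) (fun x => B x.1) i)).1 := by
        unfold mix
        rw [if_neg h2]
      rw [h3]
      rfl
  exact key _ le_rfl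

variable (hB : B ∈ cyl ℓ L)

include hB

/-- the changed oracle -/
theorem changed (h3 : ∀ z, F3 (mix T G B) z = g2 hbd bs Y ℓ L G z) (k a : List Bool)
    {q : List Bool} (hq : q.length < (bb bd Y ℓ).eval n) :
    pch (F3 (mix T G B) (pairBits (pairBits (un n) (pairBits k a)) q)) (mix T G B q) =
      orc T (ct0 T ((bb bd Y ℓ).eval n) G) ℓ L ((bb bd Y ℓ).eval n)
        ((sys Y T (ct0 T ((bb bd Y ℓ).eval n) G) ℓ L n hbd).ptc
          (bs Y ℓ L (ct0 T ((bb bd Y ℓ).eval n) G) n k a) (fun x => B x.1)) q := by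
  classical
  have hct : ∀ u ∈ T, u.length < (bb bd Y ℓ).eval n →
      ct0 T ((bb bd Y ℓ).eval n) G u = G u := by
    intro u hu hl
    unfold ct0
    rw [if_pos ⟨hu, hl⟩]
  rw [h3]
  unfold g2
  simp only [unpair_pairBits, length_un]
  unfold g2' chg
  by_cases hX : q ∈ Xs T ℓ ((bb bd Y ℓ).eval n)
  · have hX' := mem_Xs.1 hX
    have e1 : orc T (ct0 T ((bb bd Y ℓ).eval n) G) ℓ L ((bb bd Y ℓ).eval n)
        ((sys Y T (ct0 T ((bb bd Y ℓ).eval n) G) ℓ L n hbd).ptc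
          (bs Y ℓ L (ct0 T ((bb bd Y ℓ).eval n) G) n k a) (fun x => B x.1)) q =
        (sys Y T (ct0 T ((bb bd Y ℓ).eval n) G) ℓ L n hbd).ptc
          (bs Y ℓ L (ct0 T ((bb bd Y ℓ).eval n) G) n k a) (fun x => B x.1) ⟨q, hX⟩ := by
      unfold orc mix ovr
      rw [if_neg hX'.2.2, if_neg (by omega), dif_pos hX]
    rw [e1, dif_pos hX]
    unfold Sys.ptc
    split_ifs with h4
    · rfl
    · change mix T G B q = B q
      unfold mix
      rw [if_neg hX'.2.2]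
  · rw [dif_neg hX]
    change mix T G B q = _
    rw [← orc_eq (G' := ct0 T ((bb bd Y ℓ).eval n) G) (b := (bb bd Y ℓ).eval n) hct hB hq]
    unfold orc mix ovr
    split_ifs <;> rfl

theorem att_eq (h1 : ∀ z, F1 (mix T G B) z = g0 qn Y ℓ L G z)
    (h2 : ∀ z, F2 (mix T G B) z = g1 hbd bs Y ℓ L G z)
    (h3 : ∀ z, F3 (mix T G B) z = g2 hbd bs Y ℓ L G z) {k c : List Bool}
    (hc : c.length ≤ (χ bd Y).eval n) (s : SS Y n)
    {v : (Fin (Y.pg.eval n) → Bool) × (Xs T ℓ ((bb bd Y ℓ).eval n) → Bool)}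
    (hv : v = bs Y ℓ L (ct0 T ((bb bd Y ℓ).eval n) G) n k
      (ans (qn Y ℓ L (ct0 T ((bb bd Y ℓ).eval n) G) n k) (fun x => B x.1) (kq.eval n))) :
    att F1 F2 F3 kq Y.MD (mix T G B)
      (pairBits (List.ofFn s.2.1) (pairBits (un n) (pairBits k c))) = [s.2.2] ↔
    (sys Y T (ct0 T ((bb bd Y ℓ).eval n) G) ℓ L n hbd).ok
      ((sys Y T (ct0 T ((bb bd Y ℓ).eval n) G) ℓ L n hbd).sk v.1 v.2) c s
      ((sys Y T (ct0 T ((bb bd Y ℓ).eval n) G) ℓ L n hbd).ptc v (fun x => B x.1)) := by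
  set G' := ct0 T ((bb bd Y ℓ).eval n) G with hG'
  have hsk : ((sys Y T G' ℓ L n hbd).sk v.1 v.2).length ≤ (κ bd Y).eval n :=
    len_sk Y n hbd _ _
  have e1 : att F1 F2 F3 kq Y.MD (mix T G B)
      (pairBits (List.ofFn s.2.1) (pairBits (un n) (pairBits k c))) =
      acc Y.MD (orc T G' ℓ L ((bb bd Y ℓ).eval n)
        ((sys Y T G' ℓ L n hbd).ptc v (fun x => B x.1)))
        (xD Y n ((sys Y T G' ℓ L n hbd).sk v.1 v.2) c s) := by
    unfold att
    simp only [unpair_pairBits]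
    rw [fin_eq n h1 k c]
    have e2 : F2 (mix T G B) (pairBits (un n) (pairBits k (ans (qn Y ℓ L G' n k)
        (fun x => B x.1) (kq.eval n)))) = (sys Y T G' ℓ L n hbd).sk v.1 v.2 := by
      rw [h2]
      unfold g1
      simp only [unpair_pairBits, length_un]
      unfold g1'
      rw [hv]
    rw [e2]
    refine ((hbd Y.MD _ (xD Y n ((sys Y T G' ℓ L n hbd).sk v.1 v.2) c s)).2.2.2 _ ?_).2
    intro q hq
    have hl := q_MD Y ℓ n hbd _ hsk hc s q hq
    rw [hv]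
    exact changed n hB h3 k _ hl
  rw [e1]
  constructor
  · intro h _
    exact h
  · intro h
    exact h ⟨hsk, hc⟩

/-- key generation, run with the true oracle -/
theorem pk_eq (r : Fin (Y.pg.eval n) → Bool) : acc Y.MP (mix T G B) (xG Y n r) =
    (sys Y T (ct0 T ((bb bd Y ℓ).eval n) G) ℓ L n hbd).pk r (fun x => B x.1) := by
  refine ((hbd Y.MP (orc T (ct0 T ((bb bd Y ℓ).eval n) G) ℓ L ((bb bd Y ℓ).eval n)
    (fun x => B x.1)) (xG Y n r)).2.2.2 _ ?_).2
  intro q hq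
  refine (orc_eq ?_ hB (q_MP Y ℓ n hbd _ r q hq)).symm
  intro u hu hl
  unfold ct0
  rw [if_pos ⟨hu, hl⟩]

theorem sk_eq (r : Fin (Y.pg.eval n) → Bool) : acc Y.MS (mix T G B) (xG Y n r) =
    (sys Y T (ct0 T ((bb bd Y ℓ).eval n) G) ℓ L n hbd).sk r (fun x => B x.1) := by
  refine ((hbd Y.MS (orc T (ct0 T ((bb bd Y ℓ).eval n) G) ℓ L ((bb bd Y ℓ).eval n)
    (fun x => B x.1)) (xG Y n r)).2.2.2 _ ?_).2
  intro q hq
  refine (orc_eq ?_ hB (q_MS Y ℓ n hbd _ r q hq)).symm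
  intro u hu hl
  unfold ct0
  rw [if_pos ⟨hu, hl⟩]

theorem ct_eq {k : List Bool} (hk : k.length ≤ (κ bd Y).eval n) (s : SS Y n) :
    acc Y.ME (mix T G B) (xE Y n k s) =
    (sys Y T (ct0 T ((bb bd Y ℓ).eval n) G) ℓ L n hbd).ct k s (fun x => B x.1) := by
  have h : (sys Y T (ct0 T ((bb bd Y ℓ).eval n) G) ℓ L n hbd).ct k s (fun x => B x.1) =
      acc Y.ME (orc T (ct0 T ((bb bd Y ℓ).eval n) G) ℓ L ((bb bd Y ℓ).eval n)
        (fun x => B x.1)) (xE Y n k s) := by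
    change (if k.length ≤ (κ bd Y).eval n then _ else _) = _
    rw [if_pos hk]
  rw [h]
  refine ((hbd Y.ME (orc T (ct0 T ((bb bd Y ℓ).eval n) G) ℓ L ((bb bd Y ℓ).eval n)
    (fun x => B x.1)) (xE Y n k s)).2.2.2 _ ?_).2
  intro q hq
  refine (orc_eq ?_ hB (q_ME Y ℓ n hbd _ hk s q hq)).symm
  intro u hu hl
  unfold ct0
  rw [if_pos ⟨hu, hl⟩]

theorem dec_eq {k c : List Bool} (hk : k.length ≤ (κ bd Y).eval n)
    (hc : c.length ≤ (χ bd Y).eval n) (s : SS Y n) :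
    acc Y.MD (mix T G B) (xD Y n k c s) = [s.2.2] ↔
    (sys Y T (ct0 T ((bb bd Y ℓ).eval n) G) ℓ L n hbd).ok k c s (fun x => B x.1) := by
  have h : acc Y.MD (mix T G B) (xD Y n k c s) =
      acc Y.MD (orc T (ct0 T ((bb bd Y ℓ).eval n) G) ℓ L ((bb bd Y ℓ).eval n)
        (fun x => B x.1)) (xD Y n k c s) := by
    refine ((hbd Y.MD (orc T (ct0 T ((bb bd Y ℓ).eval n) G) ℓ L ((bb bd Y ℓ).eval n)
      (fun x => B x.1)) (xD Y n k c s)).2.2.2 _ ?_).2
    intro q hq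
    refine (orc_eq ?_ hB (q_MD Y ℓ n hbd _ hk hc s q hq)).symm
    intro u hu hl
    unfold ct0
    rw [if_pos ⟨hu, hl⟩]
  rw [h]
  exact ⟨fun h _ => h, fun h => h ⟨hk, hc⟩⟩

end

end Pool.Agent.W2helper58.IR
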