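import Pool.Agent.W2helper58.IR.Defs
import Pool.Agent.W2helper57.LC.Ufp
import Pool.Agent.W2helper95.LC.SUBLOOP
import Pool.Agent.W2helper58.RU.Dens
import Pool.Agent.H620R2.Gauge.M
import Pool.Agent.H620R2.Gauge.Q

/-!
# One-way functions without public-key encryption: the pieces

The oracle is random except on a sparse set `T` of strings, where it is a fixed guide `G`. The
guide helps to sample from conditional distributions, but it knows nothing about the random part.
Relative to such an oracle the usual random function is one-way, and every encryption scheme is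
broken by an attack which first asks for all strings that the key generation has asked for with
noticeable probability, given what is known already, and then decrypts with the best secret key
compatible with what is known.

Every `P_...` below is one piece; prove `theorem p_... : P_...` in a file of your own.
-/

set_option autoImplicit false

namespace Pool.Agent.W2helper58.IR

open Pool.Agent.NPC Pool.Agent.H620R2.Gauge Pool.Agent.W2helper57.LC MeasureTheory

open Pool.Agent.W2helper58.GU (acc)

open Pool.Agent.H628R3.RO (cyl ofL)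

/-! ### The finite experiment -/

section

open Classical in
/-- A finite experiment: `X` are the positions of a random string `ω : X → Bool`, `R` the random
bits of the key generation, `S` the remaining random choices (message and random bits of
encryption and decryption). `QA`, `QB`, `QD` are the positions which are asked for by key
generation, encryption and decryption; `pk`, `sk`, `ct` are public key, secret key and ciphertext;
`ok` means that the decryption is correct. -/
structure Sys (X R S : Type) where
  /-- positions asked for by key generation -/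
  QA : R → (X → Bool) → Finset X
  /-- public key -/
  pk : R → (X → Bool) → List Bool
  /-- secret key -/
  sk : R → (X → Bool) → List Bool
  /-- positions asked for by encryption with a public key -/
  QB : List Bool → S → (X → Bool) → Finset X
  /-- ciphertext, for a public key -/
  ct : List Bool → S → (X → Bool) → List Bool
  /-- positions asked for by decryption with a secret key of a ciphertext -/
  QD : List Bool → List Bool → S → (X → Bool) → Finset X
  /-- decryption with a secret key of a ciphertext gives the message -/
  ok : List Bool → List Bool → S → (X → Bool) → Prop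
  /-- bound for the number of questions -/
  t : ℕ
  hA : ∀ r ω ω', (∀ x ∈ QA r ω, ω' x = ω x) →
    QA r ω' = QA r ω ∧ pk r ω' = pk r ω ∧ sk r ω' = sk r ω
  hB : ∀ p s ω ω', (∀ x ∈ QB p s ω, ω' x = ω x) → ct p s ω' = ct p s ω
  hD : ∀ k c s ω ω', (∀ x ∈ QD k c s ω, ω' x = ω x) → (ok k c s ω' ↔ ok k c s ω)
  cA : ∀ r ω, (QA r ω).card ≤ t
  cB : ∀ p s ω, (QB p s ω).card ≤ t
  cD : ∀ k c s ω, (QD k c s ω).card ≤ t

namespace Sys

variable {X R S : Type} (Y : Sys X R S)

open Classical in
/-- `ω`, changed to `v.2` on the positions which the key generation asks for in the run `v` -/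
noncomputable def ptc (v : R × (X → Bool)) (ω : X → Bool) : X → Bool :=
  fun x => if x ∈ Y.QA v.1 v.2 then v.2 x else ω x

variable [Fintype X] [Fintype R]

open Classical in
/-- the runs of the key generation with public key `p` which are compatible with the knowledge
`H` about `ω` -/
noncomputable def post (p : List Bool) (H : List (X × Bool)) : Finset (R × (X → Bool)) :=
  Finset.univ.filter fun v => Y.pk v.1 v.2 = p ∧ ∀ q ∈ H, v.2 q.1 = q.2

open Classical in
/-- `x` is not known, but the key generation asks for it with probability more than `ε` -/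
def heavy (ε : ℝ) (p : List Bool) (H : List (X × Bool)) (x : X) : Prop :=
  x ∉ H.map Prod.fst ∧
    ε * (Y.post p H).card < (((Y.post p H).filter fun v => x ∈ Y.QA v.1 v.2).card : ℝ)

open Classical in
/-- the next position to be asked for: a heavy one, if there is any -/
noncomputable def nx [Nonempty X] (ε : ℝ) (p : List Bool) (H : List (X × Bool)) : X :=
  if h : ∃ x, Y.heavy ε p H x then h.choose else Classical.arbitrary X

/-- the knowledge after the answers `a` (the last answer comes first) -/
noncomputable def hist [Nonempty X] (ε : ℝ) (p : List Bool) : List Bool → List (X × Bool)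
  | [] => []
  | b :: a => (Y.nx ε p (hist ε p a), b) :: hist ε p a

end Sys

/-- The answers to the first `k` questions, if the question after the answers `a` is `q a` (the
last answer comes first). -/
def ans {X : Type} (q : List Bool → X) (ω : X → Bool) : ℕ → List Bool
  | 0 => []
  | k + 1 => ω (q (ans q ω k)) :: ans q ω k

end

open Classical in
/-- PIECE FIN1. If nothing is heavy, then some run `v` of the key generation which is compatible
with the knowledge decrypts almost as well as the true one, if the oracle is changed where `v` has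
asked.

Proof. Let `Ω'` be the set of the `ρ : X → Bool` with `ρ q.1 = q.2` for `q ∈ H`, `P = post p H`,
`L` the positions of `H`, and let `bad k ω₁ s ω₂` mean `¬ ok k (ct p s ω₁) s ω₂`. Resampling: for
`h : R → (X → Bool) → ℝ` the sum of `h v.1 (ptc v ρ)` over `v ∈ P`, `ρ ∈ Ω'` is `|Ω'|` times the
sum of `h v.1 v.2` over `v ∈ P` (exchange the values of `v.2` and `ρ` outside `QA v.1 v.2`: this is
an involution of `P × Ω'`). Hence (for `v' ∈ P`) the sum over `v` of `bad (sk v') v.2 s (ptc v' v.2)`
is the average over `ρ ∈ Ω'` of the sum over `v` of `bad (sk v') (ptc v ρ) s (ptc v' (ptc v ρ))`,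
and the sum over `v'` of `bad (sk v') v'.2 s v'.2` is the average over `ρ` of the sum over `v'` of
`bad (sk v') (ptc v' ρ) s (ptc v' ρ)`. For all `v, v' ∈ P`, `ρ ∈ Ω'`, `s` the first term is at most
the second one plus the number of the following events which hold: `QB p s ρ` meets `QA v \ L`;
`QB p s ρ` meets `QA v' \ L`; `QD (sk v') (ct p s ρ) s (ptc v' ρ)` meets `QA v \ L` (if none holds,
then `ct p s (ptc v ρ) = ct p s ρ = ct p s (ptc v' ρ)`, and `ptc v' (ptc v ρ)` agrees with
`ptc v' ρ` on the questions of the decryption). As nothing is heavy, each of these events has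
probability at most `t ε` for random `v`, `v'`, `v`, respectively. So the average over `v'` of the
left-hand side is at most the right-hand side; choose the best `v'`. -/
def P_fin1 : Prop := ∀ (X R S : Type) [Fintype X] [Fintype R] [Fintype S]
  (Y : Sys X R S) (ε : ℝ) (p : List Bool) (H : List (X × Bool)), 0 ≤ ε →
  (∀ x, ¬ Y.heavy ε p H x) → (Y.post p H).Nonempty →
  ∃ v' ∈ Y.post p H,
    ∑ v ∈ Y.post p H, (Nat.card {s : S // ¬ Y.ok (Y.sk v'.1 v'.2) (Y.ct p s v.2) s
      (Y.ptc v' v.2)} : ℝ) ≤
    ∑ v ∈ Y.post p H, (Nat.card {s : S // ¬ Y.ok (Y.sk v.1 v.2) (Y.ct p s v.2) s v.2} : ℝ) +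
      3 * Y.t * ε * (Y.post p H).card * Fintype.card S

/-- PIECE FIN2 (a). The answers are `a` if and only if `ω` is compatible with the knowledge. -/
def P_fin2a : Prop := ∀ (X R S : Type) [Fintype X] [Nonempty X] [Fintype R]
  (Y : Sys X R S) (ε : ℝ) (p : List Bool) (ω : X → Bool) (a : List Bool),
  (ans (fun a => Y.nx ε p (Y.hist ε p a)) ω a.length = a ↔
    ∀ q ∈ Y.hist ε p a, ω q.1 = q.2)

open Classical in
/-- PIECE FIN2 (b). For some `k < K` there is rarely a heavy position after `k` questions.

Proof. Let `F k` be the set of the pairs `v = (r, ω)` for which there is a heavy position after `k`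
questions. Given the public key and the first `k` answers `a` (with FIN2 (a) this means that
`v ∈ post p (hist a)`), the next question `x` is heavy, so more than `ε` times as many `v` have
`x ∈ QA v`. Hence `ε |F k| ≤ |{v ∈ F k : the question number k is in QA v}|`. For fixed `v` the
questions number `k` with `v ∈ F k` are different from all earlier ones, so `v` is counted in at
most `t` of the sets on the right-hand side. Sum over `k < K`. -/
def P_fin2 : Prop := ∀ (X R S : Type) [Fintype X] [Nonempty X] [Fintype R]
  (Y : Sys X R S) (ε : ℝ) (K : ℕ), 0 < ε → 0 < K → ∃ k < K,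
  ((Finset.univ.filter fun v : R × (X → Bool) =>
    ∃ x, Y.heavy ε (Y.pk v.1 v.2) (Y.hist ε (Y.pk v.1 v.2)
      (ans (fun a => Y.nx ε (Y.pk v.1 v.2) (Y.hist ε (Y.pk v.1 v.2) a)) v.2 k)) x).card : ℝ) *
    (ε * K) ≤ Y.t * Fintype.card (R × (X → Bool))

open Classical in
/-- The attack on the finite experiment. -/
def P_fin : Prop := ∀ (X R S : Type) [Fintype X] [Nonempty X] [Fintype R] [Nonempty R]
  [Fintype S] (Y : Sys X R S), ∃ (qn : List Bool → List Bool → X)
    (bst : List Bool → List Bool → R × (X → Bool)),
    ∑ v : R × (X → Bool), (Nat.card {s : S // ¬ Y.ok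
      (Y.sk (bst (Y.pk v.1 v.2) (ans (qn (Y.pk v.1 v.2)) v.2 (4096 * (Y.t + 1) ^ 2))).1
        (bst (Y.pk v.1 v.2) (ans (qn (Y.pk v.1 v.2)) v.2 (4096 * (Y.t + 1) ^ 2))).2)
      (Y.ct (Y.pk v.1 v.2) s v.2) s
      (Y.ptc (bst (Y.pk v.1 v.2) (ans (qn (Y.pk v.1 v.2)) v.2 (4096 * (Y.t + 1) ^ 2))) v.2)} :
        ℝ) ≤
    ∑ v : R × (X → Bool), (Nat.card {s : S // ¬ Y.ok (Y.sk v.1 v.2)
      (Y.ct (Y.pk v.1 v.2) s v.2) s v.2} : ℝ) +
      1 / 16 * (Fintype.card (R × (X → Bool)) * Fintype.card S)

/-- PIECE FIN3. Put `ε = 1 / (96 (t + 1))`, `K = 4096 (t + 1) ^ 2`, `k` from FIN2 (b),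
`qn p a = nx ε p (hist ε p a)`; `bst p a` looks only at the first `k` answers `a' = a.drop (K - k)`
and is the run from FIN1 for `H = hist ε p a'` if nothing is heavy there and `post p H` is nonempty
(arbitrary otherwise). Partition the pairs `v` by the public key and the first `k` answers: by
FIN2 (a) the classes are the sets `post p (hist ε p a')`. Where something is heavy use the trivial
bound `Fintype.card S` and FIN2 (b): `t / (ε K) ≤ 96 / 4096`, and `3 t ε ≤ 1 / 32`. -/
def P_fin3 : Prop := P_fin1 → P_fin2a → P_fin2 → P_fin

/-! ### Machines -/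

/-- the questions of the algorithm, within `n` further rounds after the answers `a` -/
def asks (M : Alg) (A : Oracle) (x : List Bool) : ℕ → List Bool → Finset (List Bool)
  | 0, _ => ∅
  | n + 1, a =>
    match M.D (pairBits x a) with
    | [] => ∅
    | true :: _ => ∅
    | false :: q => insert q (asks M A x n (a ++ [A q]))

/-- the questions of the algorithm with oracle `A` on input `x` -/
def qs (M : Alg) (A : Oracle) (x : List Bool) : Finset (List Bool) :=
  asks M A x (M.p.eval x.length) []

/-- PIECE TREE. (Compare `Alg.out_local`, `A2.out_bound`, `Alg.next_length` in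
`Pool.Agent.H620R2.Gauge.A1`, `A2`.) -/
def P_tree : Prop := ∀ M : Alg, ∃ b : Polynomial ℕ, ∀ (A : Oracle) (x : List Bool),
  (qs M A x).card ≤ M.p.eval x.length ∧ (∀ q ∈ qs M A x, q.length ≤ b.eval x.length) ∧
  (acc M A x).length ≤ b.eval x.length ∧
  ∀ A' : Oracle, (∀ q ∈ qs M A x, A' q = A q) → qs M A' x = qs M A x ∧ acc M A' x = acc M A x

/-- One step of the attack; the state is `⟨1^n, ⟨pk, a⟩⟩` with the answers `a` (the last one comes
first), and `F1` gives the next question. -/
def stp (F1 : Oracle → List Bool → List Bool) (kp : Polynomial ℕ) (A : Oracle) (y : List Bool) :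
    List Bool :=
  if (unpair (unpair y).2).2.length < kp.eval (unpair y).1.length then
    pairBits (unpair y).1 (pairBits (unpair (unpair y).2).1
      (A (F1 A y) :: (unpair (unpair y).2).2)) else y

/-- the final state, for the input `⟨1^n, ⟨pk, c⟩⟩` -/
def fin (F1 : Oracle → List Bool → List Bool) (kp : Polynomial ℕ) (A : Oracle) (z : List Bool) :
    List Bool :=
  (stp F1 kp A)^[kp.eval (unpair z).1.length]
    (pairBits (unpair z).1 (pairBits (unpair (unpair z).2).1 []))

/-- a changed answer -/
def pch : List Bool → Bool → Bool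
  | [], b => b
  | b :: _, _ => b

/-- The attack: input `⟨w, ⟨1^n, ⟨pk, c⟩⟩⟩`; `F2` gives the secret key, `F3` the changes of the
oracle (nothing, or the new value). -/
def att (F1 F2 F3 : Oracle → List Bool → List Bool) (kp : Polynomial ℕ) (MD : Alg) (A : Oracle)
    (x : List Bool) : List Bool :=
  acc MD (fun q => pch (F3 A (pairBits (fin F1 kp A (unpair x).2) q)) (A q))
    (pairBits (unpair x).1 (pairBits (unpair (unpair x).2).1
      (pairBits (F2 A (fin F1 kp A (unpair x).2)) (unpair (unpair (unpair x).2).2).2)))

/-- PIECE ATT. Use `s_SEQ`, `s_TT`, `s_ACC` (`W2helper57/LC/Ufp.lean`), `loop`, `sub`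
(`W2helper95/LC/SUBLOOP.lean`) and the `Poly` calculus; compare `lowFor_of_isP` in
`Results/MP_a76659_lc/LowCollapse.lean`. Further steps of the loop change nothing, so `kp` may be
evaluated at a larger length. -/
def P_att : Prop := ∀ (F1 F2 F3 : Oracle → List Bool → List Bool) (kp : Polynomial ℕ) (MD : Alg),
  UFP F1 → UFP F2 → UFP F3 → UFP (att F1 F2 F3 kp MD)

/-! ### Measure -/

open Classical in
/-- the oracle which agrees with `L` on the strings of length at most `ℓ` and with `ω` on `X` -/
noncomputable def ovr (ℓ : ℕ) (L : List (List Bool)) (X : Finset (List Bool)) (ω : X → Bool) :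
    Oracle := fun u =>
  if u.length ≤ ℓ then ofL L u else if h : u ∈ X then ω ⟨u, h⟩ else false

/-- PIECE TRANS. The integral over a cylinder of a function which depends only on the strings of
length at most `ℓ` and on the finitely many strings in `X`. (`ranO` is the same measure as
`Pool.Agent.H628R3.RO.randomOracle`.) -/
def P_trans : Prop := ∀ (ℓ : ℕ) (L : List (List Bool)) (X : Finset (List Bool)) (h : Oracle → ℝ),
  (∀ u ∈ X, ℓ < u.length) →
  (∀ A A' : Oracle, (∀ u : List Bool, u.length ≤ ℓ ∨ u ∈ X → A u = A' u) → h A = h A') →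
  ∫ B in cyl ℓ L, h B ∂ranO =
    (ranO (cyl ℓ L)).toReal * ((∑ ω : X → Bool, h (ovr ℓ L X ω)) / 2 ^ X.card)

/-- PIECE DENS. If for every cylinder the average of `a ℓ L n` is at most the average of `c n`
plus `1/16` for all large `n`, then for almost every `B` with `c n B ≤ 1/100` for all large `n`
some `ℓ, L` satisfy `a ℓ L n B ≤ 1/4` for infinitely many `n`.

Proof. All functions are local, hence measurable and integrable. Otherwise, for some `n₀` the
measurable set `W` of the `B` with `c n B ≤ 1/100` for `n ≥ n₀` and, for all `ℓ, L`,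
`a ℓ L n B > 1/4` for all large `n`, has positive measure. By `exists_cyl_dense`
(`W2helper58/RU/Dens.lean`, for the same measure) it fills `99/100` of some cylinder. There the
average of `c n` is at most `1/50` for `n ≥ n₀`, the average of `a ℓ L n` is at most `1/12` for
large `n`, so `a ℓ L n ≤ 1/4` on at least `2/3` of the cylinder, for all large `n`; so this holds
infinitely often on `2/3` of the cylinder (reverse Fatou). -/
def P_dens : Prop := ∀ (c : ℕ → Oracle → ℝ) (a : ℕ → List (List Bool) → ℕ → Oracle → ℝ),
  (∀ n B, 0 ≤ c n B ∧ c n B ≤ 1) → (∀ ℓ L n B, 0 ≤ a ℓ L n B ∧ a ℓ L n B ≤ 1) →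
  (∀ n, ∃ b : ℕ, ∀ A A' : Oracle, (∀ u : List Bool, u.length < b → A u = A' u) →
    c n A = c n A') →
  (∀ ℓ L n, ∃ b : ℕ, ∀ A A' : Oracle, (∀ u : List Bool, u.length < b → A u = A' u) →
    a ℓ L n A = a ℓ L n A') →
  (∀ ℓ L, ∀ᶠ n : ℕ in Filter.atTop, ∫ B in cyl ℓ L, a ℓ L n B ∂ranO ≤
    ∫ B in cyl ℓ L, c n B ∂ranO + 1 / 16 * (ranO (cyl ℓ L)).toReal) →
  ∀ᵐ B ∂ranO, (∀ᶠ n : ℕ in Filter.atTop, c n B ≤ 1 / 100) →
    ∃ ℓ L, ∃ᶠ n : ℕ in Filter.atTop, a ℓ L n B ≤ 1 / 4

/-! ### The one-way function -/

open Classical in
/-- the oracle which is `G` on `T` and `B` elsewhere -/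
noncomputable def mix (T : Set (List Bool)) (G B : Oracle) : Oracle :=
  fun u => if u ∈ T then G u else B u

/-- the random function: `3 |x|` bits of the oracle for every `x` -/
def rf (A : Oracle) (x : List Bool) : List Bool :=
  (List.range (3 * x.length)).map fun i => A (false :: false :: (x ++ List.replicate i true))

/-- PIECE OWF1. The average success probability of an inverter is at most `q n / 2 ^ n`.

Proof. Fix `n` and the random bits `w` of the inverter `M`, which asks at most `t` questions. Write
`A = mix T G B`. Exchange the `3 n` bits of the block of `x` in `B` (which is disjoint from `T`)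
with `3 n` fresh random bits `z`: so the success probability is the probability, for random `x`,
`B`, `z`, that `M`, given `z` and the oracle `A'` which is `A` with the block of `x` replaced by
`z`, finds `x'` with `rf A' x' = z`. If the run of `M` on `z` with oracle `A` does not ask for a
string of the block of `x`, then it is the same with `A'`; the blocks of different `x` of length
`n` are disjoint, so this fails with probability at most `t / 2 ^ n`. Then `x'` does not depend on
`x`: either `x' = x` (probability `1 / 2 ^ n`), or `rf A x' = z` for some `x'` of length `n`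
(probability `2 ^ n / 2 ^ (3 n)`; the length of `x'` is `n` as `|rf A x'| = 3 |x'|`). -/
def P_owf1 : Prop := ∀ (T : Set (List Bool)) (G : Oracle) (M : Alg) (p : Polynomial ℕ),
  (∀ u : List Bool, false :: false :: u ∉ T) → ∃ q : Polynomial ℕ, ∀ n : ℕ,
  ∫ B, inv (rf (mix T G B)) (acc M (mix T G B)) p n ∂ranO ≤ q.eval n / 2 ^ n

/-- PIECE OWF2. By Markov's inequality and the Borel-Cantelli lemma (`Alg` and `Polynomial ℕ` are
countable: `exists_alg`, `CC.poly_countable`); `rf A` is computable in polynomial time relative to
`A` (`IsFP.tt` or `s_TT`). -/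
def P_owf2 : Prop := P_owf1 → ∀ (T : Set (List Bool)) (G : Oracle),
  (∀ u : List Bool, false :: false :: u ∉ T) → ∀ᵐ B ∂ranO, HasStrongOWF (mix T G B)

/-! ### The guide -/

open Classical in
/-- PIECE GUIDE. With `R e = (bounds from P e) + (X + (e + 1)) ^ K` and
`T = {y | ∃ e x, y = code R e x}` (`CC.code_inj`, `CC.Phi`, `CC.Phi_code`, `CC.Phi_not` in
`H620R2/Gauge/C.lean`; `sparse` in `H620R2/Gauge/Q.lean`). The bit number `i` of `γ e A z`, and
whether there is such a bit, are written at the strings `code R (2 e) ⟨1^i, z⟩`,
`code R (2 e + 1) ⟨1^i, z⟩` (so take the bounds for `R (2 e)` and `R (2 e + 1)` from `P e`), and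
`G = CC.Phi R V (fun _ => false)` for the corresponding `V`. -/
def P_guide : Prop := ∀ (K : ℕ) (P : ℕ → Polynomial ℕ), 1 ≤ K → ∃ T : Set (List Bool),
  (∀ u : List Bool, false :: false :: u ∉ T) ∧
  (∀ ε : ℝ, 0 < ε → 1 < ε * K → ∀ᶠ N : ℕ in Filter.atTop, (((Finset.range N).filter
      (fun i => str i ∈ T)).card : ℝ) ≤ 2 ^ (Real.logb 2 N) ^ ε) ∧
  ∀ γ : ℕ → Oracle → List Bool → List Bool,
    (∀ e A A' z, (∀ u ∈ T, u.length ≤ (P e).eval z.length → A u = A' u) →
      γ e A z = γ e A' z) →
    (∀ e A z, (γ e A z).length ≤ (P e).eval z.length) →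
    ∃ G : Oracle, ∀ e, ∃ F : Oracle → List Bool → List Bool, UFP F ∧
      ∀ A : Oracle, (∀ u ∈ T, A u = G u) → ∀ z, F A z = γ e G z

end Pool.Agent.W2helper58.IR
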