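import Pool.Agent.W2helper58.IR.Stm

/-!
# The finite experiment given by the algorithms of a scheme
-/

set_option autoImplicit false

namespace Pool.Agent.W2helper58.IR

open Pool.Agent.NPC Pool.Agent.H620R2.Gauge Pool.Agent.W2helper57.LC MeasureTheory

open Pool.Agent.W2helper58.GU (acc)

open Pool.Agent.H628R3.RO (cyl ofL)

/-- a scheme given by algorithms -/
structure Sch : Type where
  /-- public key -/
  MP : Alg
  /-- secret key -/
  MS : Alg
  /-- encryption -/
  ME : Alg
  /-- decryption -/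
  MD : Alg
  /-- random bits of key generation -/
  pg : Polynomial ℕ
  /-- random bits of encryption -/
  pe : Polynomial ℕ
  /-- random bits of decryption -/
  pd : Polynomial ℕ

/-- the functions of the scheme -/
def Sch.at (Y : Sch) (A : Oracle) : Scheme :=
  ⟨acc Y.MP A, acc Y.MS A, acc Y.ME A, acc Y.MD A, Y.pg, Y.pe, Y.pd⟩

/-- the bound of the piece TREE -/
def Bd (bd : Alg → Polynomial ℕ) : Prop := ∀ (M : Alg) (A : Oracle) (x : List Bool),
  (qs M A x).card ≤ M.p.eval x.length ∧ (∀ q ∈ qs M A x, q.length ≤ (bd M).eval x.length) ∧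
  (acc M A x).length ≤ (bd M).eval x.length ∧
  ∀ A' : Oracle, (∀ q ∈ qs M A x, A' q = A q) → qs M A' x = qs M A x ∧ acc M A' x = acc M A x

section

variable (bd : Alg → Polynomial ℕ) (Y : Sch)

/-- length of the input of key generation -/
noncomputable def lG : Polynomial ℕ := Polynomial.C 2 * Y.pg + Polynomial.C 1 + Polynomial.X

/-- bound for the lengths of the keys -/
noncomputable def κ : Polynomial ℕ := (bd Y.MP).comp (lG Y) + (bd Y.MS).comp (lG Y)

/-- bound for the length of the input of encryption -/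
noncomputable def lE : Polynomial ℕ := Polynomial.C 2 * Y.pe + Polynomial.C 1 +
  (Polynomial.C 2 * Polynomial.X + Polynomial.C 1 + (Polynomial.C 1 + κ bd Y))

/-- bound for the length of the ciphertext -/
noncomputable def χ : Polynomial ℕ := (bd Y.ME).comp (lE bd Y)

/-- bound for the length of the input of decryption -/
noncomputable def lD : Polynomial ℕ := Polynomial.C 2 * Y.pd + Polynomial.C 1 +
  (Polynomial.C 2 * Polynomial.X + Polynomial.C 1 +
    (Polynomial.C 2 * κ bd Y + Polynomial.C 1 + χ bd Y))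

/-- bound for the number of questions -/
noncomputable def tt : Polynomial ℕ := Y.MP.p.comp (lG Y) + Y.MS.p.comp (lG Y) +
  Y.ME.p.comp (lE bd Y) + Y.MD.p.comp (lD bd Y)

/-- all questions are shorter -/
noncomputable def bb (ℓ : ℕ) : Polynomial ℕ := κ bd Y + χ bd Y + (bd Y.MD).comp (lD bd Y) +
  Polynomial.C (ℓ + 3)

end

theorem finite_Xs (T : Set (List Bool)) (ℓ b : ℕ) :
    {u : List Bool | u.length < b ∧ ℓ < u.length ∧ u ∉ T}.Finite :=
  (List.finite_length_lt Bool b).subset fun _ h => h.1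

/-- the free positions -/
noncomputable def Xs (T : Set (List Bool)) (ℓ b : ℕ) : Finset (List Bool) :=
  (finite_Xs T ℓ b).toFinset

theorem mem_Xs {T : Set (List Bool)} {ℓ b : ℕ} {u : List Bool} :
    u ∈ Xs T ℓ b ↔ u.length < b ∧ ℓ < u.length ∧ u ∉ T := by
  unfold Xs
  simp

/-- the oracle of the experiment -/
noncomputable def orc (T : Set (List Bool)) (G : Oracle) (ℓ : ℕ) (L : List (List Bool)) (b : ℕ)
    (ω : Xs T ℓ b → Bool) : Oracle := mix T G (ovr ℓ L (Xs T ℓ b) ω)

open Classical in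
/-- a set of strings, as a set of free positions -/
noncomputable def qx (T : Set (List Bool)) (ℓ b : ℕ) (Q : Finset (List Bool)) :
    Finset (Xs T ℓ b) := Finset.univ.filter fun x => x.1 ∈ Q

theorem mem_qx {T : Set (List Bool)} {ℓ b : ℕ} {Q : Finset (List Bool)} {x : Xs T ℓ b} :
    x ∈ qx T ℓ b Q ↔ x.1 ∈ Q := by
  unfold qx
  simp

theorem card_qx (T : Set (List Bool)) (ℓ b : ℕ) (Q : Finset (List Bool)) :
    (qx T ℓ b Q).card ≤ Q.card := by
  apply Finset.card_le_card_of_injOn (fun x => x.1)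
  · intro x hx
    exact mem_qx.1 hx
  · intro x _ y _ h
    exact Subtype.ext h

theorem orc_agree {T : Set (List Bool)} {G : Oracle} {ℓ : ℕ} {L : List (List Bool)} {b : ℕ}
    {ω ω' : Xs T ℓ b → Bool} {Q : Finset (List Bool)} (hQ : ∀ q ∈ Q, q.length < b)
    (h : ∀ x ∈ qx T ℓ b Q, ω' x = ω x) : ∀ q ∈ Q, orc T G ℓ L b ω' q = orc T G ℓ L b ω q := by
  intro q hq
  unfold orc mix ovr
  split_ifs with h1 h2 h3
  · rfl
  · rfl
  · exact h ⟨q, h3⟩ (mem_qx.2 hq)
  · rfl

/-- the oracle of the experiment agrees with the true oracle -/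
theorem orc_eq {T : Set (List Bool)} {G G' B : Oracle} {ℓ : ℕ} {L : List (List Bool)} {b : ℕ}
    (hG : ∀ u ∈ T, u.length < b → G' u = G u) (hB : B ∈ cyl ℓ L) {q : List Bool}
    (hq : q.length < b) : orc T G' ℓ L b (fun x => B x.1) q = mix T G B q := by
  unfold orc mix ovr
  split_ifs with h1 h2 h3
  · exact hG q h1 hq
  · exact (hB q h2).symm
  · rfl
  · exact absurd (mem_Xs.2 ⟨hq, by omega, h1⟩) h3

section

variable {bd : Alg → Polynomial ℕ} (Y : Sch) (T : Set (List Bool)) (G : Oracle) (ℓ : ℕ)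
  (L : List (List Bool)) (n : ℕ)

/-- input of key generation -/
def xG (r : Fin (Y.pg.eval n) → Bool) : List Bool := pairBits (List.ofFn r) (un n)

/-- the remaining random choices -/
abbrev SS : Type := (Fin (Y.pe.eval n) → Bool) × (Fin (Y.pd.eval n) → Bool) × Bool

/-- input of encryption -/
def xE (k : List Bool) (s : SS Y n) : List Bool :=
  pairBits (List.ofFn s.1) (pairBits (un n) (s.2.2 :: k))

/-- input of decryption -/
def xD (k c : List Bool) (s : SS Y n) : List Bool :=
  pairBits (List.ofFn s.2.1) (pairBits (un n) (pairBits k c))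

theorem length_un (n : ℕ) : (un n).length = n := List.length_replicate

theorem length_xG (r : Fin (Y.pg.eval n) → Bool) : (xG Y n r).length = (lG Y).eval n := by
  unfold xG lG
  rw [Pool.Agent.H620R2.Gauge.length_pairBits, List.length_ofFn, length_un]
  simp only [Polynomial.eval_add, Polynomial.eval_mul, Polynomial.eval_C, Polynomial.eval_X]

theorem length_xE {k : List Bool} (hk : k.length ≤ (κ bd Y).eval n) (s : SS Y n) :
    (xE Y n k s).length ≤ (lE bd Y).eval n := by
  unfold xE lE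
  rw [Pool.Agent.H620R2.Gauge.length_pairBits, Pool.Agent.H620R2.Gauge.length_pairBits, List.length_ofFn, length_un,
    List.length_cons]
  simp only [Polynomial.eval_add, Polynomial.eval_mul, Polynomial.eval_C, Polynomial.eval_X]
  omega

theorem length_xD {k c : List Bool} (hk : k.length ≤ (κ bd Y).eval n)
    (hc : c.length ≤ (χ bd Y).eval n) (s : SS Y n) :
    (xD Y n k c s).length ≤ (lD bd Y).eval n := by
  unfold xD lD
  rw [Pool.Agent.H620R2.Gauge.length_pairBits, Pool.Agent.H620R2.Gauge.length_pairBits, Pool.Agent.H620R2.Gauge.length_pairBits, List.length_ofFn,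
    length_un]
  simp only [Polynomial.eval_add, Polynomial.eval_mul, Polynomial.eval_C, Polynomial.eval_X]
  omega

variable (hbd : Bd bd)

include hbd

theorem len_pk (A : Oracle) (r : Fin (Y.pg.eval n) → Bool) :
    (acc Y.MP A (xG Y n r)).length ≤ (κ bd Y).eval n := by
  refine ((hbd Y.MP A (xG Y n r)).2.2.1).trans ?_
  rw [length_xG]
  unfold κ
  simp only [Polynomial.eval_add, Polynomial.eval_comp]
  omega

theorem len_sk (A : Oracle) (r : Fin (Y.pg.eval n) → Bool) :
    (acc Y.MS A (xG Y n r)).length ≤ (κ bd Y).eval n := by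
  refine ((hbd Y.MS A (xG Y n r)).2.2.1).trans ?_
  rw [length_xG]
  unfold κ
  simp only [Polynomial.eval_add, Polynomial.eval_comp]
  omega

theorem len_ct (A : Oracle) {k : List Bool} (hk : k.length ≤ (κ bd Y).eval n) (s : SS Y n) :
    (acc Y.ME A (xE Y n k s)).length ≤ (χ bd Y).eval n := by
  refine ((hbd Y.ME A (xE Y n k s)).2.2.1).trans ?_
  unfold χ
  rw [Polynomial.eval_comp]
  exact eval_mono _ (length_xE Y n hk s)

theorem q_MP (A : Oracle) (r : Fin (Y.pg.eval n) → Bool) :
    ∀ q ∈ qs Y.MP A (xG Y n r), q.length < (bb bd Y ℓ).eval n := by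
  intro q hq
  have h := (hbd Y.MP A (xG Y n r)).2.1 q hq
  rw [length_xG] at h
  unfold bb κ
  simp only [Polynomial.eval_add, Polynomial.eval_comp, Polynomial.eval_C]
  omega

theorem q_MS (A : Oracle) (r : Fin (Y.pg.eval n) → Bool) :
    ∀ q ∈ qs Y.MS A (xG Y n r), q.length < (bb bd Y ℓ).eval n := by
  intro q hq
  have h := (hbd Y.MS A (xG Y n r)).2.1 q hq
  rw [length_xG] at h
  unfold bb κ
  simp only [Polynomial.eval_add, Polynomial.eval_comp, Polynomial.eval_C]
  omega

theorem q_ME (A : Oracle) {k : List Bool} (hk : k.length ≤ (κ bd Y).eval n) (s : SS Y n) :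
    ∀ q ∈ qs Y.ME A (xE Y n k s), q.length < (bb bd Y ℓ).eval n := by
  intro q hq
  have h := (hbd Y.ME A (xE Y n k s)).2.1 q hq
  have h2 := eval_mono (bd Y.ME) (length_xE (bd := bd) Y n hk s)
  unfold bb χ
  simp only [Polynomial.eval_add, Polynomial.eval_comp, Polynomial.eval_C]
  omega

theorem q_MD (A : Oracle) {k c : List Bool} (hk : k.length ≤ (κ bd Y).eval n)
    (hc : c.length ≤ (χ bd Y).eval n) (s : SS Y n) :
    ∀ q ∈ qs Y.MD A (xD Y n k c s), q.length < (bb bd Y ℓ).eval n := by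
  intro q hq
  have h := (hbd Y.MD A (xD Y n k c s)).2.1 q hq
  have h2 := eval_mono (bd Y.MD) (length_xD (bd := bd) Y n hk hc s)
  unfold bb
  simp only [Polynomial.eval_add, Polynomial.eval_comp, Polynomial.eval_C]
  omega

open Classical in
/-- the experiment -/
noncomputable def sys : Sys (Xs T ℓ ((bb bd Y ℓ).eval n)) (Fin (Y.pg.eval n) → Bool) (SS Y n) where
  QA r ω := qx T ℓ _ (qs Y.MP (orc T G ℓ L _ ω) (xG Y n r) ∪ qs Y.MS (orc T G ℓ L _ ω) (xG Y n r))
  pk r ω := acc Y.MP (orc T G ℓ L _ ω) (xG Y n r)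
  sk r ω := acc Y.MS (orc T G ℓ L _ ω) (xG Y n r)
  QB k s ω := if k.length ≤ (κ bd Y).eval n then
    qx T ℓ _ (qs Y.ME (orc T G ℓ L _ ω) (xE Y n k s)) else ∅
  ct k s ω := if k.length ≤ (κ bd Y).eval n then acc Y.ME (orc T G ℓ L _ ω) (xE Y n k s) else []
  QD k c s ω := if k.length ≤ (κ bd Y).eval n ∧ c.length ≤ (χ bd Y).eval n then
    qx T ℓ _ (qs Y.MD (orc T G ℓ L _ ω) (xD Y n k c s)) else ∅
  ok k c s ω := k.length ≤ (κ bd Y).eval n ∧ c.length ≤ (χ bd Y).eval n →
    acc Y.MD (orc T G ℓ L _ ω) (xD Y n k c s) = [s.2.2]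
  t := (tt bd Y).eval n
  hA r ω ω' h := by
    have h1 : ∀ q ∈ qs Y.MP (orc T G ℓ L _ ω) (xG Y n r) ∪ qs Y.MS (orc T G ℓ L _ ω) (xG Y n r),
        orc T G ℓ L _ ω' q = orc T G ℓ L _ ω q := by
      refine orc_agree (fun q hq => ?_) h
      rcases Finset.mem_union.1 hq with hq | hq
      · exact q_MP Y ℓ n hbd _ r q hq
      · exact q_MS Y ℓ n hbd _ r q hq
    obtain ⟨h2, h3⟩ := (hbd Y.MP (orc T G ℓ L _ ω) (xG Y n r)).2.2.2 (orc T G ℓ L _ ω')
      fun q hq => h1 q (Finset.mem_union_left _ hq)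
    obtain ⟨h4, h5⟩ := (hbd Y.MS (orc T G ℓ L _ ω) (xG Y n r)).2.2.2 (orc T G ℓ L _ ω')
      fun q hq => h1 q (Finset.mem_union_right _ hq)
    exact ⟨by rw [h2, h4], h3, h5⟩
  hB k s ω ω' h := by
    split_ifs with hk
    · simp only [if_pos hk] at h
      exact ((hbd Y.ME (orc T G ℓ L _ ω) (xE Y n k s)).2.2.2 (orc T G ℓ L _ ω')
        (orc_agree (fun q hq => q_ME Y ℓ n hbd _ hk s q hq) h)).2
    · rfl
  hD k c s ω ω' h := by
    by_cases hk : k.length ≤ (κ bd Y).eval n ∧ c.length ≤ (χ bd Y).eval n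
    · simp only [if_pos hk] at h
      rw [((hbd Y.MD (orc T G ℓ L _ ω) (xD Y n k c s)).2.2.2 (orc T G ℓ L _ ω')
        (orc_agree (fun q hq => q_MD Y ℓ n hbd _ hk.1 hk.2 s q hq) h)).2]
    · exact ⟨fun _ h => absurd h hk, fun _ h => absurd h hk⟩
  cA r ω := by
    refine (card_qx _ _ _ _).trans ((Finset.card_union_le _ _).trans ?_)
    have h1 := (hbd Y.MP (orc T G ℓ L _ ω) (xG Y n r)).1
    have h2 := (hbd Y.MS (orc T G ℓ L _ ω) (xG Y n r)).1
    rw [length_xG] at h1 h2
    unfold tt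
    simp only [Polynomial.eval_add, Polynomial.eval_comp]
    omega
  cB k s ω := by
    split_ifs with hk
    · refine (card_qx _ _ _ _).trans (((hbd Y.ME (orc T G ℓ L _ ω) (xE Y n k s)).1).trans ?_)
      have h2 := eval_mono Y.ME.p (length_xE (bd := bd) Y n hk s)
      unfold tt
      simp only [Polynomial.eval_add, Polynomial.eval_comp]
      omega
    · simp
  cD k c s ω := by
    split_ifs with hk
    · refine (card_qx _ _ _ _).trans (((hbd Y.MD (orc T G ℓ L _ ω) (xD Y n k c s)).1).trans ?_)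
      have h2 := eval_mono Y.MD.p (length_xD (bd := bd) Y n hk.1 hk.2 s)
      unfold tt
      simp only [Polynomial.eval_add, Polynomial.eval_comp]
      omega
    · simp

end

end Pool.Agent.W2helper58.IR
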